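import Pool.Agent.SRC.Defs

/-!
# Block FK1: the random cluster representation of the Ising model by even subgraphs
(helper56)

`ε` is the type of edges, `δ e` the boundary of the edge `e` in a group `G` of exponent two (for a graph
`G = V → ZMod 2`, `δ e` = sum of the two ends; boundary conditions = quotients of `G`).
`wF` is the weight of FK-Ising with free boundary conditions on `E` (even subgraph form),
`FF δ A ω`: some subset of `ω` has boundary `A` (every cluster of `ω` has an even number of points of `A`).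
-/

set_option autoImplicit false
set_option linter.unusedSectionVars false

namespace Pool.Agent.FK1

open Finset
open Pool.Agent.SRC (ind ind_true ind_false ind_nonneg ind_le_one ind_mono ind_congr)

/-! ## Sums over subsets -/

section sums

variable {ε : Type*} [DecidableEq ε]

/-- splitting a sum over the subsets of a disjoint union -/
theorem sum_powerset_union (E F : Finset ε) (h : Disjoint E F) (g : Finset ε → ℝ) :
    ∑ s ∈ (E ∪ F).powerset, g s = ∑ s ∈ E.powerset, ∑ t ∈ F.powerset, g (s ∪ t) := by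
  rw [← Finset.sum_product']
  symm
  refine Finset.sum_bij' (fun p _ => p.1 ∪ p.2) (fun s _ => (s ∩ E, s ∩ F)) ?_ ?_ ?_ ?_ ?_
  · rintro ⟨s, t⟩ hp
    rw [Finset.mem_product, Finset.mem_powerset, Finset.mem_powerset] at hp
    exact Finset.mem_powerset.mpr (Finset.union_subset_union hp.1 hp.2)
  · intro s _
    rw [Finset.mem_product, Finset.mem_powerset, Finset.mem_powerset]
    exact ⟨Finset.inter_subset_right, Finset.inter_subset_right⟩
  · rintro ⟨s, t⟩ hp
    rw [Finset.mem_product, Finset.mem_powerset, Finset.mem_powerset] at hp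
    have hs : s ⊆ E := hp.1
    have ht : t ⊆ F := hp.2
    have h3 : t ∩ E = ∅ :=
      Finset.disjoint_iff_inter_eq_empty.mp (Finset.disjoint_of_subset_left ht h.symm)
    have h4 : s ∩ F = ∅ :=
      Finset.disjoint_iff_inter_eq_empty.mp (Finset.disjoint_of_subset_left hs h)
    have h1 : (s ∪ t) ∩ E = s := by
      rw [Finset.union_inter_distrib_right, Finset.inter_eq_left.mpr hs, h3, Finset.union_empty]
    have h2 : (s ∪ t) ∩ F = t := by
      rw [Finset.union_inter_distrib_right, Finset.inter_eq_left.mpr ht, h4, Finset.empty_union]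
    exact Prod.ext h1 h2
  · intro s hs
    rw [Finset.mem_powerset] at hs
    show s ∩ E ∪ s ∩ F = s
    rw [← Finset.inter_union_distrib_left, Finset.inter_eq_left.mpr hs]
  · intro p _
    rfl

/-- sums over the subsets of `E` containing `η` -/
theorem sum_powerset_sdiff (E η : Finset ε) (h : η ⊆ E) (g : Finset ε → ℝ) :
    ∑ c ∈ (E \ η).powerset, g (η ∪ c) = ∑ s ∈ E.powerset.filter (fun s => η ⊆ s), g s := by
  refine Finset.sum_bij' (fun c _ => η ∪ c) (fun s _ => s \ η) ?_ ?_ ?_ ?_ ?_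
  · intro c hc
    rw [Finset.mem_powerset] at hc
    rw [Finset.mem_filter, Finset.mem_powerset]
    exact ⟨Finset.union_subset h (hc.trans Finset.sdiff_subset), Finset.subset_union_left⟩
  · intro s hs
    rw [Finset.mem_filter, Finset.mem_powerset] at hs
    exact Finset.mem_powerset.mpr (Finset.sdiff_subset_sdiff hs.1 (le_refl η))
  · intro c hc
    rw [Finset.mem_powerset] at hc
    show (η ∪ c) \ η = c
    rw [Finset.union_sdiff_left]
    exact Finset.sdiff_eq_self_of_disjoint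
      (Finset.disjoint_of_subset_left hc Finset.sdiff_disjoint)
  · intro s hs
    rw [Finset.mem_filter, Finset.mem_powerset] at hs
    exact Finset.union_sdiff_of_subset hs.2
  · intro c _
    rfl

/-- the Bernoulli weight -/
noncomputable def wB (x : ε → ℝ) (E ω : Finset ε) : ℝ := (∏ e ∈ ω, x e) * ∏ e ∈ E \ ω, (1 - x e)

theorem wB_nonneg {x : ε → ℝ} {E : Finset ε} (h0 : ∀ e ∈ E, 0 ≤ x e) (h1 : ∀ e ∈ E, x e ≤ 1)
    {ω : Finset ε} (hω : ω ⊆ E) : 0 ≤ wB x E ω :=
  mul_nonneg (Finset.prod_nonneg fun e he => h0 e (hω he))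
    (Finset.prod_nonneg fun e he => sub_nonneg.mpr (h1 e (Finset.sdiff_subset he)))

theorem wB_pos {x : ε → ℝ} {E : Finset ε} (h0 : ∀ e ∈ E, 0 < x e) (h1 : ∀ e ∈ E, x e < 1)
    {ω : Finset ε} (hω : ω ⊆ E) : 0 < wB x E ω :=
  mul_pos (Finset.prod_pos fun e he => h0 e (hω he))
    (Finset.prod_pos fun e he => sub_pos.mpr (h1 e (Finset.sdiff_subset he)))

theorem wB_union (x : ε → ℝ) {E F s t : Finset ε} (h : Disjoint E F) (hs : s ⊆ E) (ht : t ⊆ F) :
    wB x (E ∪ F) (s ∪ t) = wB x E s * wB x F t := by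
  unfold wB
  have h1 : Disjoint s t := Finset.disjoint_of_subset_left hs (Finset.disjoint_of_subset_right ht h)
  have h2 : (E ∪ F) \ (s ∪ t) = (E \ s) ∪ (F \ t) := by
    ext e
    simp only [Finset.mem_sdiff, Finset.mem_union]
    constructor
    · rintro ⟨h3 | h3, h4⟩
      · exact Or.inl ⟨h3, fun h5 => h4 (Or.inl h5)⟩
      · exact Or.inr ⟨h3, fun h5 => h4 (Or.inr h5)⟩
    · rintro (⟨h3, h4⟩ | ⟨h3, h4⟩)
      · exact ⟨Or.inl h3, fun h5 => h5.elim h4
          fun h6 => (Finset.disjoint_left.mp h h3) (ht h6)⟩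
      · exact ⟨Or.inr h3, fun h5 => h5.elim
          (fun h6 => (Finset.disjoint_left.mp h (hs h6)) h3) h4⟩
  have h3 : Disjoint (E \ s) (F \ t) :=
    Finset.disjoint_of_subset_left Finset.sdiff_subset
      (Finset.disjoint_of_subset_right Finset.sdiff_subset h)
  rw [h2, Finset.prod_union h1, Finset.prod_union h3]
  ring

theorem sum_wB (x : ε → ℝ) (E : Finset ε) : ∑ s ∈ E.powerset, wB x E s = 1 := by
  unfold wB
  rw [← Finset.prod_add]
  simp

/-- Bernoulli percolation united with a fixed set -/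
theorem sum_wB_union (x : ε → ℝ) {E η : Finset ε} (h : η ⊆ E) (g : Finset ε → ℝ) :
    ∑ b ∈ E.powerset, wB x E b * g (η ∪ b) =
      ∑ c ∈ (E \ η).powerset, wB x (E \ η) c * g (η ∪ c) := by
  have hE : E = η ∪ (E \ η) := (Finset.union_sdiff_of_subset h).symm
  have hd : Disjoint η (E \ η) := Finset.disjoint_sdiff
  conv_lhs => rw [hE]
  rw [sum_powerset_union η (E \ η) hd]
  rw [Finset.sum_comm]
  refine Finset.sum_congr rfl fun c hc => ?_
  rw [Finset.mem_powerset] at hc
  have h1 : ∀ s ∈ η.powerset, wB x (η ∪ E \ η) (s ∪ c) * g (η ∪ (s ∪ c)) =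
      wB x η s * (wB x (E \ η) c * g (η ∪ c)) := by
    intro s hs
    rw [Finset.mem_powerset] at hs
    rw [wB_union x hd hs hc, ← Finset.union_assoc, Finset.union_eq_left.mpr hs]
    ring
  rw [Finset.sum_congr rfl h1, ← Finset.sum_mul, sum_wB, one_mul]

end sums

/-! ## Stochastic domination on the subsets of `E` -/

section dom

variable {ε : Type*} [DecidableEq ε]

/-- increasing and nonnegative on the subsets of `E` -/
def Inc (E : Finset ε) (f : Finset ε → ℝ) : Prop :=
  (∀ s, s ⊆ E → 0 ≤ f s) ∧ ∀ s t, s ⊆ t → t ⊆ E → f s ≤ f t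

/-- the law with weight `q` dominates the law with weight `p` -/
def SD (E : Finset ε) (p q : Finset ε → ℝ) : Prop := ∀ f : Finset ε → ℝ, Inc E f →
  (∑ s ∈ E.powerset, p s * f s) * ∑ s ∈ E.powerset, q s ≤
    (∑ s ∈ E.powerset, p s) * ∑ s ∈ E.powerset, q s * f s

private lemma ffun (E : Finset ε) (p q r t : Finset ε → ℝ) (hp : ∀ s, s ⊆ E → 0 ≤ p s)
    (hq : ∀ s, s ⊆ E → 0 ≤ q s) (hr : ∀ s, s ⊆ E → 0 ≤ r s) (ht : ∀ s, s ⊆ E → 0 ≤ t s)
    (h : ∀ a, a ⊆ E → ∀ b, b ⊆ E → p a * q b ≤ r (a ∩ b) * t (a ∪ b)) :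
    (∑ s ∈ E.powerset, p s) * ∑ s ∈ E.powerset, q s ≤
      (∑ s ∈ E.powerset, r s) * ∑ s ∈ E.powerset, t s := by
  classical
  let z : (Finset ε → ℝ) → Finset ε → ℝ := fun u s => if s ⊆ E then u s else 0
  have hz : ∀ u : Finset ε → ℝ, (∀ s, s ⊆ E → 0 ≤ u s) → (0 : Finset ε → ℝ) ≤ z u := by
    intro u hu s
    show 0 ≤ z u s
    simp only [z]
    split_ifs with hs
    · exact hu s hs
    · exact le_refl 0
  have hsum : ∀ u : Finset ε → ℝ, ∑ s ∈ E.powerset, z u s = ∑ s ∈ E.powerset, u s := by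
    intro u
    refine Finset.sum_congr rfl fun s hs => ?_
    simp only [z]
    rw [if_pos (Finset.mem_powerset.mp hs)]
  have := Finset.four_functions_theorem E (hz p hp) (hz q hq) (hz r hr) (hz t ht)
    (fun a ha b hb => by
      simp only [z]
      rw [if_pos ha, if_pos hb, if_pos (Finset.inter_subset_left.trans ha),
        if_pos (Finset.union_subset ha hb)]
      exact h a ha b hb) (le_refl _) (le_refl _)
  rw [hsum, hsum] at this
  refine this.trans ?_
  have h1 : ∀ u : Finset ε → ℝ, (∀ s, s ⊆ E → 0 ≤ u s) → ∀ S : Finset (Finset ε),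
      ∑ s ∈ S, z u s ≤ ∑ s ∈ E.powerset, u s := by
    intro u hu S
    rw [← hsum u]
    have h2 : ∑ s ∈ S, z u s = ∑ s ∈ S ∩ E.powerset, z u s := by
      rw [← Finset.filter_mem_eq_inter, Finset.sum_filter]
      refine Finset.sum_congr rfl fun s _ => ?_
      by_cases hs : s ∈ E.powerset
      · rw [if_pos hs]
      · rw [if_neg hs]
        simp only [z]
        rw [if_neg (fun h3 => hs (Finset.mem_powerset.mpr h3))]
    rw [h2]
    exact Finset.sum_le_sum_of_subset_of_nonneg Finset.inter_subset_right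
      fun s _ _ => hz u hu s
  exact mul_le_mul (h1 r hr _) (h1 t ht _) (Finset.sum_nonneg fun s _ => hz t ht s)
    (Finset.sum_nonneg fun s hs => hr s (Finset.mem_powerset.mp hs))

/-- Holley's criterion -/
theorem SD_of_lat {E : Finset ε} {p q : Finset ε → ℝ} (hp : ∀ s, s ⊆ E → 0 ≤ p s)
    (hq : ∀ s, s ⊆ E → 0 ≤ q s)
    (h : ∀ a, a ⊆ E → ∀ b, b ⊆ E → p a * q b ≤ p (a ∩ b) * q (a ∪ b)) : SD E p q := by
  intro f hf
  refine ffun E _ _ _ _ (fun s hs => mul_nonneg (hp s hs) (hf.1 s hs)) hq hp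
    (fun s hs => mul_nonneg (hq s hs) (hf.1 s hs)) fun a ha b hb => ?_
  have h1 := h a ha b hb
  have h2 : f a ≤ f (a ∪ b) := hf.2 a _ Finset.subset_union_left (Finset.union_subset ha hb)
  calc p a * f a * q b = p a * q b * f a := by ring
    _ ≤ p (a ∩ b) * q (a ∪ b) * f (a ∪ b) :=
      mul_le_mul h1 h2 (hf.1 a ha) (mul_nonneg (hp _ (Finset.inter_subset_left.trans ha))
        (hq _ (Finset.union_subset ha hb)))
    _ = p (a ∩ b) * (q (a ∪ b) * f (a ∪ b)) := by ring

/-- the FKG inequality -/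
theorem fkg_of_lat {E : Finset ε} {p : Finset ε → ℝ} (hp : ∀ s, s ⊆ E → 0 ≤ p s)
    (h : ∀ a, a ⊆ E → ∀ b, b ⊆ E → p a * p b ≤ p (a ∩ b) * p (a ∪ b)) {f g : Finset ε → ℝ}
    (hf : Inc E f) (hg : Inc E g) :
    (∑ s ∈ E.powerset, p s * f s) * ∑ s ∈ E.powerset, p s * g s ≤
      (∑ s ∈ E.powerset, p s) * ∑ s ∈ E.powerset, p s * (f s * g s) := by
  refine ffun E _ _ _ _ (fun s hs => mul_nonneg (hp s hs) (hf.1 s hs))
    (fun s hs => mul_nonneg (hp s hs) (hg.1 s hs)) hp
    (fun s hs => mul_nonneg (hp s hs) (mul_nonneg (hf.1 s hs) (hg.1 s hs))) fun a ha b hb => ?_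
  have h1 := h a ha b hb
  have hab := Finset.union_subset ha hb
  have h2 : f a ≤ f (a ∪ b) := hf.2 a _ Finset.subset_union_left hab
  have h3 : g b ≤ g (a ∪ b) := hg.2 b _ Finset.subset_union_right hab
  calc p a * f a * (p b * g b) = p a * p b * (f a * g b) := by ring
    _ ≤ p (a ∩ b) * p (a ∪ b) * (f (a ∪ b) * g (a ∪ b)) :=
      mul_le_mul h1 (mul_le_mul h2 h3 (hg.1 b hb) (hf.1 _ hab)) (mul_nonneg (hf.1 a ha) (hg.1 b hb))
        (mul_nonneg (hp _ (Finset.inter_subset_left.trans ha)) (hp _ hab))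
    _ = p (a ∩ b) * (p (a ∪ b) * (f (a ∪ b) * g (a ∪ b))) := by ring

/-- the lattice condition from one-edge ratios -/
theorem lat_of_ratio {E : Finset ε} {p q : Finset ε → ℝ} (hp : ∀ s, s ⊆ E → 0 < p s)
    (hq : ∀ s, s ⊆ E → 0 < q s)
    (h : ∀ c t, c ⊆ t → t ⊆ E → ∀ e ∈ E, e ∉ t →
      p (insert e c) * q t ≤ p c * q (insert e t)) :
    ∀ a, a ⊆ E → ∀ b, b ⊆ E → p a * q b ≤ p (a ∩ b) * q (a ∪ b) := by
  have key : ∀ u : Finset ε, ∀ c t : Finset ε, c ⊆ t → t ⊆ E → u ⊆ E → Disjoint u t →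
      p (c ∪ u) * q t ≤ p c * q (t ∪ u) := by
    intro u
    induction u using Finset.induction_on with
    | empty =>
      intro c t _ _ _ _
      rw [Finset.union_empty, Finset.union_empty]
    | insert e u heu ih =>
      intro c t hc ht hu hd
      have hu' : u ⊆ E := (Finset.subset_insert e u).trans hu
      have he : e ∈ E := hu (Finset.mem_insert_self e u)
      have hdt : Disjoint u t := Finset.disjoint_of_subset_left (Finset.subset_insert e u) hd
      have het : e ∉ t := Finset.disjoint_left.mp hd (Finset.mem_insert_self e u)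
      have h1 := ih c t hc ht hu' hdt
      have hD : t ∪ u ⊆ E := Finset.union_subset ht hu'
      have hC : c ∪ u ⊆ t ∪ u := Finset.union_subset_union hc (le_refl u)
      have h2 := h (c ∪ u) (t ∪ u) hC hD e he (by
        rw [Finset.mem_union]
        exact fun h3 => h3.elim het heu)
      have e1 : c ∪ insert e u = insert e (c ∪ u) := Finset.union_insert e c u
      have e2 : t ∪ insert e u = insert e (t ∪ u) := Finset.union_insert e t u
      rw [e1, e2]
      have pC : 0 < p (c ∪ u) := hp _ (hC.trans hD)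
      have qD : 0 < q (t ∪ u) := hq _ hD
      have pc : 0 < p c := hp _ (hc.trans ht)
      have qt : 0 < q t := hq _ ht
      have qe : 0 < q (insert e (t ∪ u)) := hq _ (Finset.insert_subset he hD)
      have h3 : (p (insert e (c ∪ u)) * q t) * (p (c ∪ u) * q (t ∪ u)) ≤
          (p c * q (insert e (t ∪ u))) * (p (c ∪ u) * q (t ∪ u)) := by
        calc (p (insert e (c ∪ u)) * q t) * (p (c ∪ u) * q (t ∪ u))
            = (p (insert e (c ∪ u)) * q (t ∪ u)) * (p (c ∪ u) * q t) := by ring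
          _ ≤ (p (c ∪ u) * q (insert e (t ∪ u))) * (p c * q (t ∪ u)) :=
            mul_le_mul h2 h1 (mul_nonneg pC.le qt.le) (mul_nonneg pC.le qe.le)
          _ = (p c * q (insert e (t ∪ u))) * (p (c ∪ u) * q (t ∪ u)) := by ring
      exact le_of_mul_le_mul_right h3 (mul_pos pC qD)
  intro a ha b hb
  have h1 := key (a \ b) (a ∩ b) b Finset.inter_subset_right hb (Finset.sdiff_subset.trans ha)
    Finset.sdiff_disjoint
  have e1 : a ∩ b ∪ a \ b = a := by
    rw [Finset.union_comm]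
    exact Finset.sdiff_union_inter a b
  have e2 : b ∪ a \ b = a ∪ b := by
    rw [Finset.union_sdiff_self_eq_union, Finset.union_comm]
  rwa [e1, e2] at h1

omit [DecidableEq ε] in
theorem SD.trans {E : Finset ε} {p q r : Finset ε → ℝ} (h1 : SD E p q) (h2 : SD E q r)
    (hp : ∀ s, s ⊆ E → 0 ≤ p s) (hq : 0 < ∑ s ∈ E.powerset, q s)
    (hr : ∀ s, s ⊆ E → 0 ≤ r s) : SD E p r := by
  intro f hf
  have a1 := h1 f hf
  have a2 := h2 f hf
  have hR : 0 ≤ ∑ s ∈ E.powerset, r s :=
    Finset.sum_nonneg fun s hs => hr s (Finset.mem_powerset.mp hs)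
  have hP : 0 ≤ ∑ s ∈ E.powerset, p s :=
    Finset.sum_nonneg fun s hs => hp s (Finset.mem_powerset.mp hs)
  have a3 := mul_le_mul_of_nonneg_right a1 hR
  have a4 := mul_le_mul_of_nonneg_left a2 hP
  refine le_of_mul_le_mul_right (a := ∑ s ∈ E.powerset, q s) ?_ hq
  calc (∑ s ∈ E.powerset, p s * f s) * (∑ s ∈ E.powerset, r s) * ∑ s ∈ E.powerset, q s
      = (∑ s ∈ E.powerset, p s * f s) * (∑ s ∈ E.powerset, q s) * ∑ s ∈ E.powerset, r s := by ring
    _ ≤ (∑ s ∈ E.powerset, p s) * (∑ s ∈ E.powerset, q s * f s) * ∑ s ∈ E.powerset, r s := a3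
    _ = (∑ s ∈ E.powerset, p s) * ((∑ s ∈ E.powerset, q s * f s) * ∑ s ∈ E.powerset, r s) := by
      ring
    _ ≤ (∑ s ∈ E.powerset, p s) * ((∑ s ∈ E.powerset, q s) * ∑ s ∈ E.powerset, r s * f s) := a4
    _ = (∑ s ∈ E.powerset, p s) * (∑ s ∈ E.powerset, r s * f s) * ∑ s ∈ E.powerset, q s := by ring

end dom

end Pool.Agent.FK1
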