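import Pool.Agent.FK1.Dom

/-!
# Block FK1, part 4: joint functionals, Markov property, block domination (helper56)

`YG δ x s E A f`: unnormalised expectation of `f η b`, `η` the loop O(1) model on `E` with sources `A`
(weights `x`), `b` independent Bernoulli with parameters `s`.
-/

set_option autoImplicit false
set_option linter.unusedSectionVars false

namespace Pool.Agent.FK1

open Finset
open Pool.Agent.SRC (ind ind_true ind_false ind_nonneg ind_le_one ind_mono ind_congr)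

section

variable {ε G : Type*} [DecidableEq ε] [AddCommGroup G] {δ : ε → G}

/-- joint functional -/
noncomputable def YG (δ : ε → G) (x s : ε → ℝ) (E : Finset ε) (A : G)
    (f : Finset ε → Finset ε → ℝ) : ℝ :=
  ∑ η ∈ E.powerset, ind (bdm δ η = A) * (∏ e ∈ η, x e) * ∑ b ∈ E.powerset, wB s E b * f η b

/-- admissible parameters -/
structure Prm (x s : ε → ℝ) (E : Finset ε) : Prop where
  x0 : ∀ e ∈ E, 0 ≤ x e
  s0 : ∀ e ∈ E, 0 ≤ s e
  s1 : ∀ e ∈ E, s e ≤ 1

theorem Prm.mono {x s : ε → ℝ} {E T : Finset ε} (h : Prm x s E) (hT : T ⊆ E) : Prm x s T :=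
  ⟨fun e he => h.x0 e (hT he), fun e he => h.s0 e (hT he), fun e he => h.s1 e (hT he)⟩

theorem YS_eq_YG (x s : ε → ℝ) (E : Finset ε) (A : G) (f : Finset ε → ℝ) :
    YS δ x s E A f = YG δ x s E A fun η b => f (η ∪ b) := rfl

theorem YG_congr {x s : ε → ℝ} {E : Finset ε} {A : G} {f g : Finset ε → Finset ε → ℝ}
    (h : ∀ η, η ⊆ E → ∀ b, b ⊆ E → bdm δ η = A → f η b = g η b) :
    YG δ x s E A f = YG δ x s E A g := by
  unfold YG
  refine Finset.sum_congr rfl fun η hη => ?_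
  rw [Finset.mem_powerset] at hη
  by_cases hA : bdm δ η = A
  · congr 1
    refine Finset.sum_congr rfl fun b hb => ?_
    rw [h η hη b (Finset.mem_powerset.mp hb) hA]
  · rw [ind_false hA]
    ring

theorem YG_mono {x s : ε → ℝ} {E : Finset ε} (hp : Prm x s E) {A : G}
    {f g : Finset ε → Finset ε → ℝ}
    (h : ∀ η, η ⊆ E → ∀ b, b ⊆ E → bdm δ η = A → f η b ≤ g η b) :
    YG δ x s E A f ≤ YG δ x s E A g := by
  unfold YG
  refine Finset.sum_le_sum fun η hη => ?_
  rw [Finset.mem_powerset] at hη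
  by_cases hA : bdm δ η = A
  · refine mul_le_mul_of_nonneg_left ?_ (mul_nonneg (ind_nonneg _)
      (Finset.prod_nonneg fun e he => hp.x0 e (hη he)))
    refine Finset.sum_le_sum fun b hb => ?_
    rw [Finset.mem_powerset] at hb
    exact mul_le_mul_of_nonneg_left (h η hη b hb hA) (wB_nonneg hp.s0 hp.s1 hb)
  · rw [ind_false hA]
    simp

theorem YG_nonneg {x s : ε → ℝ} {E : Finset ε} (hp : Prm x s E) {A : G}
    {f : Finset ε → Finset ε → ℝ} (h : ∀ η, η ⊆ E → ∀ b, b ⊆ E → 0 ≤ f η b) :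
    0 ≤ YG δ x s E A f := by
  unfold YG
  refine Finset.sum_nonneg fun η hη => ?_
  rw [Finset.mem_powerset] at hη
  refine mul_nonneg (mul_nonneg (ind_nonneg _) (Finset.prod_nonneg fun e he => hp.x0 e (hη he))) ?_
  refine Finset.sum_nonneg fun b hb => ?_
  rw [Finset.mem_powerset] at hb
  exact mul_nonneg (wB_nonneg hp.s0 hp.s1 hb) (h η hη b hb)

theorem YG_add (x s : ε → ℝ) (E : Finset ε) (A : G) (f g : Finset ε → Finset ε → ℝ) :
    YG δ x s E A (fun η b => f η b + g η b) = YG δ x s E A f + YG δ x s E A g := by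
  unfold YG
  rw [← Finset.sum_add_distrib]
  refine Finset.sum_congr rfl fun η _ => ?_
  rw [← mul_add, ← Finset.sum_add_distrib]
  congr 1
  refine Finset.sum_congr rfl fun b _ => ?_
  ring

theorem YG_smul (x s : ε → ℝ) (E : Finset ε) (A : G) (c : ℝ) (f : Finset ε → Finset ε → ℝ) :
    YG δ x s E A (fun η b => c * f η b) = c * YG δ x s E A f := by
  unfold YG
  rw [Finset.mul_sum]
  refine Finset.sum_congr rfl fun η _ => ?_
  have : ∑ b ∈ E.powerset, wB s E b * (c * f η b) = c * ∑ b ∈ E.powerset, wB s E b * f η b := by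
    rw [Finset.mul_sum]
    refine Finset.sum_congr rfl fun b _ => ?_
    ring
  rw [this]
  ring

theorem YG_sub (x s : ε → ℝ) (E : Finset ε) (A : G) (f g : Finset ε → Finset ε → ℝ) :
    YG δ x s E A (fun η b => f η b - g η b) = YG δ x s E A f - YG δ x s E A g := by
  have h1 := YG_add (δ := δ) x s E A f fun η b => (-1) * g η b
  rw [YG_smul] at h1
  have h2 : YG δ x s E A (fun η b => f η b - g η b) =
      YG δ x s E A fun η b => f η b + (-1) * g η b :=
    YG_congr fun η _ b _ _ => by ring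
  rw [h2, h1]
  ring

theorem YG_const (x s : ε → ℝ) (E : Finset ε) (A : G) (c : ℝ) :
    YG δ x s E A (fun _ _ => c) = c * ZA δ x E A := by
  unfold YG ZA
  rw [Finset.mul_sum]
  refine Finset.sum_congr rfl fun η _ => ?_
  rw [← Finset.sum_mul, sum_wB]
  ring

/-- functions of `η` alone -/
theorem YG_eta (x s : ε → ℝ) (E : Finset ε) (A : G) (f : Finset ε → ℝ) :
    YG δ x s E A (fun η _ => f η) =
      ∑ η ∈ E.powerset, ind (bdm δ η = A) * (∏ e ∈ η, x e) * f η := by
  unfold YG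
  refine Finset.sum_congr rfl fun η _ => ?_
  rw [← Finset.sum_mul, sum_wB, one_mul]

/-- the Markov property: condition on `(η, b)` in `E₁`; in `E₂` the sources are `A - bdm η₁` -/
theorem YG_markov (x s : ε → ℝ) {E₁ E₂ : Finset ε} (hd : Disjoint E₁ E₂) (A : G)
    (f : Finset ε → Finset ε → ℝ) :
    YG δ x s (E₁ ∪ E₂) A f = ∑ η ∈ E₁.powerset, (∏ e ∈ η, x e) * ∑ b ∈ E₁.powerset, wB s E₁ b *
      YG δ x s E₂ (A - bdm δ η) fun η' b' => f (η ∪ η') (b ∪ b') := by
  unfold YG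
  rw [sum_powerset_union E₁ E₂ hd]
  refine Finset.sum_congr rfl fun η hη => ?_
  rw [Finset.mem_powerset] at hη
  have h1 : ∀ b ∈ E₁.powerset, wB s E₁ b * ∑ η' ∈ E₂.powerset,
      ind (bdm δ η' = A - bdm δ η) * (∏ e ∈ η', x e) *
        ∑ b' ∈ E₂.powerset, wB s E₂ b' * f (η ∪ η') (b ∪ b') =
      ∑ η' ∈ E₂.powerset, ind (bdm δ η' = A - bdm δ η) * (∏ e ∈ η', x e) *
        ∑ b' ∈ E₂.powerset, (wB s E₁ b * wB s E₂ b') * f (η ∪ η') (b ∪ b') := by
    intro b _
    rw [Finset.mul_sum]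
    refine Finset.sum_congr rfl fun η' _ => ?_
    rw [Finset.mul_sum, Finset.mul_sum, Finset.mul_sum]
    refine Finset.sum_congr rfl fun b' _ => ?_
    ring
  rw [Finset.sum_congr rfl h1, Finset.sum_comm, Finset.mul_sum]
  refine Finset.sum_congr rfl fun η' hη' => ?_
  rw [Finset.mem_powerset] at hη'
  have hdd : Disjoint η η' :=
    Finset.disjoint_of_subset_left hη (Finset.disjoint_of_subset_right hη' hd)
  have h2 : ind (bdm δ (η ∪ η') = A) = ind (bdm δ η' = A - bdm δ η) := by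
    refine ind_congr ?_
    rw [bdm_union hdd]
    exact ⟨fun h => by rw [← h]; abel, fun h => by rw [h]; abel⟩
  rw [h2, Finset.prod_union hdd, sum_powerset_union E₁ E₂ hd, ← Finset.mul_sum]
  have h3 : ∑ b ∈ E₁.powerset, ∑ b' ∈ E₂.powerset, wB s (E₁ ∪ E₂) (b ∪ b') *
      f (η ∪ η') (b ∪ b') = ∑ b ∈ E₁.powerset, ∑ b' ∈ E₂.powerset, wB s E₁ b * wB s E₂ b' *
        f (η ∪ η') (b ∪ b') := by
    refine Finset.sum_congr rfl fun b hb => Finset.sum_congr rfl fun b' hb' => ?_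
    rw [wB_union s hd (Finset.mem_powerset.mp hb) (Finset.mem_powerset.mp hb')]
  rw [h3]
  ring

/-- the Markov property, block `T` inside `E` -/
theorem YG_markov' (x s : ε → ℝ) {E T : Finset ε} (hT : T ⊆ E) (A : G)
    (f : Finset ε → Finset ε → ℝ) :
    YG δ x s E A f = ∑ η ∈ (E \ T).powerset, (∏ e ∈ η, x e) * ∑ b ∈ (E \ T).powerset,
      wB s (E \ T) b * YG δ x s T (A - bdm δ η) fun η' b' => f (η ∪ η') (b ∪ b') := by
  have h := YG_markov (δ := δ) x s (E₁ := E \ T) (E₂ := T) Finset.sdiff_disjoint A f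
  rwa [Finset.sdiff_union_of_subset hT] at h

/-- COMPARISON IN A BLOCK: an inequality in the block `T` for all source sets, given everything
outside, gives the inequality on `E` -/
theorem YG_block_le {x s : ε → ℝ} {E T : Finset ε} (hp : Prm x s E) (hT : T ⊆ E) {A : G}
    {f g : Finset ε → Finset ε → ℝ}
    (h : ∀ η, η ⊆ E \ T → ∀ b, b ⊆ E \ T → ∀ B : G,
      YG δ x s T B (fun η' b' => f (η ∪ η') (b ∪ b')) ≤
        YG δ x s T B fun η' b' => g (η ∪ η') (b ∪ b')) :
    YG δ x s E A f ≤ YG δ x s E A g := by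
  rw [YG_markov' x s hT A f, YG_markov' x s hT A g]
  refine Finset.sum_le_sum fun η hη => ?_
  rw [Finset.mem_powerset] at hη
  refine mul_le_mul_of_nonneg_left ?_
    (Finset.prod_nonneg fun e he => hp.x0 e (Finset.sdiff_subset (hη he)))
  refine Finset.sum_le_sum fun b hb => ?_
  rw [Finset.mem_powerset] at hb
  exact mul_le_mul_of_nonneg_left (h η hη b hb _)
    (wB_nonneg (fun e he => hp.s0 e (Finset.sdiff_subset he))
      (fun e he => hp.s1 e (Finset.sdiff_subset he)) hb)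

theorem Par.prm {x s y : ε → ℝ} {E : Finset ε} (h : Par x s y E) : Prm x s E :=
  ⟨fun e he => (h.x0 e he).le, fun e he => (h.s0 e he).le,
    fun e he => (h.sx e he).trans (h.x1 e he).le⟩

/-- probability lower bound in a block from a lower bound for FK with weights `y` -/
theorem YS_ge_of_wF (h2 : ∀ g : G, g + g = 0) {x s y : ε → ℝ} {T : Finset ε} (hp : Par x s y T)
    {f : Finset ε → ℝ} (hf : Inc T f) {c : ℝ}
    (hc : c * ∑ ω ∈ T.powerset, wF δ y T ω ≤ ∑ ω ∈ T.powerset, wF δ y T ω * f ω) (B : G) :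
    c * ZA δ x T B ≤ YS δ x s T B f := by
  have h1 := YS_dom (δ := δ) h2 hp B hf
  have pY : 0 < ∑ ω ∈ T.powerset, wF δ y T ω := sum_wF_pos hp.y0 hp.y1
  have pZ : 0 ≤ ZA δ x T B := by
    rw [ZA_eq h2]
    exact Finset.sum_nonneg fun ω hω => mul_nonneg (wF_nonneg (fun e he => (hp.x0 e he).le)
      (fun e he => (hp.x1 e he).le) (Finset.mem_powerset.mp hω)) (ind_nonneg _)
  refine le_of_mul_le_mul_left (a := ∑ ω ∈ T.powerset, wF δ y T ω) ?_ pY
  calc (∑ ω ∈ T.powerset, wF δ y T ω) * (c * ZA δ x T B)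
      = (c * ∑ ω ∈ T.powerset, wF δ y T ω) * ZA δ x T B := by ring
    _ ≤ (∑ ω ∈ T.powerset, wF δ y T ω * f ω) * ZA δ x T B := mul_le_mul_of_nonneg_right hc pZ
    _ ≤ _ := h1

private lemma cut_out {E T a a' : Finset ε} (ha : a ⊆ E \ T) (ha' : a' ⊆ T) :
    (a ∪ a') \ T = a ∧ (a ∪ a') ∩ T = a' := by
  constructor
  · ext e
    simp only [Finset.mem_sdiff, Finset.mem_union]
    constructor
    · rintro ⟨h | h, h1⟩
      · exact h
      · exact absurd (ha' h) h1
    · intro h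
      exact ⟨Or.inl h, (Finset.mem_sdiff.mp (ha h)).2⟩
  · ext e
    simp only [Finset.mem_inter, Finset.mem_union]
    constructor
    · rintro ⟨h | h, h1⟩
      · exact absurd h1 (Finset.mem_sdiff.mp (ha h)).2
      · exact h
    · intro h
      exact ⟨Or.inr h, ha' h⟩

/-- BLOCK DOMINATION. `g ≥ 0` a function of `(η, b)` outside `T`, `h` increasing on `T`. -/
theorem YG_block_ge (h2 : ∀ g : G, g + g = 0) {x s y : ε → ℝ} {E T : Finset ε}
    (hp : Prm x s E) (hT : T ⊆ E) (hq : Par x s y T) {A : G} {g : Finset ε → Finset ε → ℝ}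
    (hg : ∀ η, η ⊆ E → ∀ b, b ⊆ E → 0 ≤ g η b) (hg' : ∀ η b, g η b = g (η \ T) (b \ T))
    {f : Finset ε → ℝ} (hf : Inc T f) {c : ℝ}
    (hc : c * ∑ ω ∈ T.powerset, wF δ y T ω ≤ ∑ ω ∈ T.powerset, wF δ y T ω * f ω) :
    c * YG δ x s E A g ≤ YG δ x s E A fun η b => g η b * f ((η ∪ b) ∩ T) := by
  rw [← YG_smul]
  refine YG_block_le hp hT fun η hη b hb B => ?_
  have hη' : η ⊆ E := hη.trans Finset.sdiff_subset
  have hb' : b ⊆ E := hb.trans Finset.sdiff_subset
  have e0 : ∀ η', η' ⊆ T → ∀ b', b' ⊆ T → g (η ∪ η') (b ∪ b') = g η b := by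
    intro η' h1 b' h3
    rw [hg' (η ∪ η') (b ∪ b'), (cut_out hη h1).1, (cut_out hb h3).1]
  have e1 : YG δ x s T B (fun η' b' => c * g (η ∪ η') (b ∪ b')) = c * g η b * ZA δ x T B := by
    rw [← YG_const (δ := δ) x s T B (c * g η b)]
    exact YG_congr fun η' h1 b' h3 _ => by rw [e0 η' h1 b' h3]
  have e2 : YG δ x s T B (fun η' b' => g (η ∪ η') (b ∪ b') * f ((η ∪ η' ∪ (b ∪ b')) ∩ T)) =
      g η b * YS δ x s T B f := by
    rw [YS_eq_YG, ← YG_smul]
    refine YG_congr fun η' h1 b' h3 _ => ?_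
    rw [e0 η' h1 b' h3]
    have h4 : (η ∪ η' ∪ (b ∪ b')) ∩ T = η' ∪ b' := by
      rw [Finset.union_union_union_comm]
      exact (cut_out (Finset.union_subset hη hb) (Finset.union_subset h1 h3)).2
    rw [h4]
  rw [e1, e2]
  have h5 := YS_ge_of_wF (δ := δ) h2 hq hf hc B
  have h6 : 0 ≤ g η b := hg η hη' b hb'
  nlinarith

/-- the same for the complementary event -/
theorem YG_block_not (h2 : ∀ g : G, g + g = 0) {x s y : ε → ℝ} {E T : Finset ε}
    (hp : Prm x s E) (hT : T ⊆ E) (hq : Par x s y T) {A : G} {g : Finset ε → Finset ε → ℝ}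
    (hg : ∀ η, η ⊆ E → ∀ b, b ⊆ E → 0 ≤ g η b) (hg' : ∀ η b, g η b = g (η \ T) (b \ T))
    {f : Finset ε → ℝ} (hf : Inc T f) {c : ℝ}
    (hc : c * ∑ ω ∈ T.powerset, wF δ y T ω ≤ ∑ ω ∈ T.powerset, wF δ y T ω * f ω) :
    YG δ x s E A (fun η b => g η b * (1 - f ((η ∪ b) ∩ T))) ≤ (1 - c) * YG δ x s E A g := by
  have h1 := YG_block_ge (A := A) h2 hp hT hq hg hg' hf hc
  have h3 : YG δ x s E A (fun η b => g η b * (1 - f ((η ∪ b) ∩ T))) =
      YG δ x s E A g - YG δ x s E A fun η b => g η b * f ((η ∪ b) ∩ T) := by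
    rw [← YG_sub]
    exact YG_congr fun η _ b _ _ => by ring
  rw [h3]
  linarith

/-- PRODUCT BOUND over pairwise disjoint blocks `T i`, `i ∈ J`. -/
theorem YG_blocks_not (h2 : ∀ g : G, g + g = 0) {κ : Type*} [DecidableEq κ] {x s y : ε → ℝ}
    {E : Finset ε} (hp : Prm x s E) (J : Finset κ) (T : κ → Finset ε) (hT : ∀ i ∈ J, T i ⊆ E)
    (hd : ∀ i ∈ J, ∀ j ∈ J, i ≠ j → Disjoint (T i) (T j)) (hq : ∀ i ∈ J, Par x s y (T i)) {A : G}
    {g : Finset ε → Finset ε → ℝ} (hg : ∀ η, η ⊆ E → ∀ b, b ⊆ E → 0 ≤ g η b)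
    (hg' : ∀ i ∈ J, ∀ η b, g η b = g (η \ T i) (b \ T i))
    (f : κ → Finset ε → ℝ) (hf : ∀ i ∈ J, Inc (T i) (f i)) (hf1 : ∀ i ∈ J, ∀ ω, ω ⊆ T i → f i ω ≤ 1)
    (c : κ → ℝ) (hc1 : ∀ i ∈ J, c i ≤ 1)
    (hc : ∀ i ∈ J, c i * ∑ ω ∈ (T i).powerset, wF δ y (T i) ω ≤
      ∑ ω ∈ (T i).powerset, wF δ y (T i) ω * f i ω) :
    YG δ x s E A (fun η b => g η b * ∏ i ∈ J, (1 - f i ((η ∪ b) ∩ T i))) ≤
      (∏ i ∈ J, (1 - c i)) * YG δ x s E A g := by
  induction J using Finset.induction_on with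
  | empty => simp
  | insert j J hj ih =>
    have ih' := ih (fun i hi => hT i (Finset.mem_insert_of_mem hi))
      (fun i hi k hk => hd i (Finset.mem_insert_of_mem hi) k (Finset.mem_insert_of_mem hk))
      (fun i hi => hq i (Finset.mem_insert_of_mem hi))
      (fun i hi => hg' i (Finset.mem_insert_of_mem hi))
      (fun i hi => hf i (Finset.mem_insert_of_mem hi))
      (fun i hi => hf1 i (Finset.mem_insert_of_mem hi))
      (fun i hi => hc1 i (Finset.mem_insert_of_mem hi))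
      (fun i hi => hc i (Finset.mem_insert_of_mem hi))
    have hjm : j ∈ insert j J := Finset.mem_insert_self j J
    have hsub : ∀ (i : κ) (a : Finset ε), a ∩ T i ⊆ T i := fun i a => Finset.inter_subset_right
    have h1 := YG_block_not (A := A) (g := fun η b => g η b * ∏ i ∈ J, (1 - f i ((η ∪ b) ∩ T i)))
      h2 hp (hT j hjm) (hq j hjm)
      (fun η hη b hb => mul_nonneg (hg η hη b hb) (Finset.prod_nonneg fun i hi =>
        sub_nonneg.mpr (hf1 i (Finset.mem_insert_of_mem hi) _ (hsub i _))))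
      (fun η b => by
        show g η b * ∏ i ∈ J, (1 - f i ((η ∪ b) ∩ T i)) = g (η \ T j) (b \ T j) *
          ∏ i ∈ J, (1 - f i ((η \ T j ∪ b \ T j) ∩ T i))
        rw [← hg' j hjm η b]
        congr 1
        refine Finset.prod_congr rfl fun i hi => ?_
        have hij : Disjoint (T i) (T j) := hd i (Finset.mem_insert_of_mem hi) j hjm
          (fun h => hj (h ▸ hi))
        have e1 : (η \ T j ∪ b \ T j) ∩ T i = (η ∪ b) ∩ T i := by
          ext e
          simp only [Finset.mem_inter, Finset.mem_union, Finset.mem_sdiff]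
          constructor
          · rintro ⟨h3 | h3, h4⟩
            · exact ⟨Or.inl h3.1, h4⟩
            · exact ⟨Or.inr h3.1, h4⟩
          · rintro ⟨h3 | h3, h4⟩
            · exact ⟨Or.inl ⟨h3, Finset.disjoint_left.mp hij h4⟩, h4⟩
            · exact ⟨Or.inr ⟨h3, Finset.disjoint_left.mp hij h4⟩, h4⟩
        rw [e1])
      (hf j hjm) (hc j hjm)
    have e2 : YG δ x s E A (fun η b => g η b * ∏ i ∈ insert j J, (1 - f i ((η ∪ b) ∩ T i))) =
        YG δ x s E A (fun η b => g η b * (∏ i ∈ J, (1 - f i ((η ∪ b) ∩ T i))) *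
          (1 - f j ((η ∪ b) ∩ T j))) := by
      refine YG_congr fun η _ b _ _ => ?_
      rw [Finset.prod_insert hj]
      ring
    rw [e2, Finset.prod_insert hj]
    refine h1.trans ?_
    rw [mul_assoc]
    exact mul_le_mul_of_nonneg_left ih' (sub_nonneg.mpr (hc1 j hjm))

end

end Pool.Agent.FK1
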