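import Pool.Agent.FK1.Lu
import Pool.Agent.TC.LebDefs

/-!
# Block FK1, part Br: the high temperature expansion (helper34)

`cf S β u v` (TC, spin form) `= ZZ (loopM (tanh β)) (edg S) (pt u v) / ZZ (loopM (tanh β)) (edg S) 0`.
-/

set_option autoImplicit false
set_option linter.unusedSectionVars false

namespace Pool.Agent.FK1

open Finset
open Pool.Agent.SRC
open Pool.Agent.TC (spin cf av GI bond)

variable {d : ℕ}

/-- sign of a spin configuration (minus spins `T`) on a vertex function -/
noncomputable def sgn (S : Finset (Vx d)) (A : Vx d → ZMod 2) (T : Finset (Vx d)) : ℝ :=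
  ∏ v ∈ S, if A v = 1 then spin T v else 1

theorem spin_sq (T : Finset (Vx d)) (v : Vx d) : spin T v * spin T v = 1 := by
  unfold spin
  split_ifs <;> norm_num

theorem sgn_zero (S T : Finset (Vx d)) : sgn S 0 T = 1 := by
  unfold sgn
  refine Finset.prod_eq_one fun v _ => ?_
  rw [if_neg]
  exact zero_ne_one

theorem sgn_add (S T : Finset (Vx d)) (A B : Vx d → ZMod 2) :
    sgn S (A + B) T = sgn S A T * sgn S B T := by
  unfold sgn
  rw [← Finset.prod_mul_distrib]
  refine Finset.prod_congr rfl fun v _ => ?_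
  have h01 : ∀ z : ZMod 2, z = 0 ∨ z = 1 := by decide
  rw [Pi.add_apply]
  rcases h01 (A v) with h1 | h1 <;> rcases h01 (B v) with h3 | h3 <;> rw [h1, h3]
  · norm_num
  · norm_num
  · norm_num
  · rw [if_neg (by decide), if_pos rfl, spin_sq]

theorem sgn_single (S T : Finset (Vx d)) (u : Vx d) (hu : u ∈ S) :
    sgn S (Pi.single u 1) T = spin T u := by
  classical
  unfold sgn
  rw [Finset.prod_eq_single u]
  · rw [Pi.single_eq_same, if_pos rfl]
  · intro v _ hv
    rw [Pi.single_eq_of_ne hv, if_neg zero_ne_one]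
  · intro h
    exact absurd hu h

theorem sgn_pt (S T : Finset (Vx d)) (u v : Vx d) (hu : u ∈ S) (hv : v ∈ S) :
    sgn S (pt u v) T = spin T u * spin T v := by
  unfold pt
  rw [sgn_add, sgn_single S T u hu, sgn_single S T v hv]

theorem sgn_bde (S T : Finset (Vx d)) (e : Ed d) (he : e ∈ edg S) :
    sgn S (bde e) T = bond e T := by
  rw [mem_edg] at he
  unfold bde bond
  rw [sgn_add, sgn_single S T _ he.1, sgn_single S T _ he.2]

theorem sgn_bd (S T : Finset (Vx d)) (η : Finset (Ed d)) (hη : η ⊆ edg S) :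
    sgn S (bd η) T = ∏ e ∈ η, bond e T := by
  classical
  induction η using Finset.induction_on with
  | empty =>
    have h1 : bd (∅ : Finset (Ed d)) = 0 := Finset.sum_empty
    rw [h1, sgn_zero, Finset.prod_empty]
  | insert e η he ih =>
    have h1 : bd (insert e η) = bde e + bd η := Finset.sum_insert he
    rw [h1, sgn_add, Finset.prod_insert he, sgn_bde S T e (hη (Finset.mem_insert_self e η)),
      ih ((Finset.subset_insert e η).trans hη)]

/-- orthogonality of characters -/
theorem sum_sgn (S : Finset (Vx d)) (A : Vx d → ZMod 2) (hA : ∀ v, v ∉ S → A v = 0) :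
    ∑ T ∈ S.powerset, sgn S A T = 2 ^ S.card * ind (A = 0) := by
  classical
  have h1 : ∀ T ∈ S.powerset, sgn S A T =
      (∏ v ∈ T, if A v = 1 then (-1 : ℝ) else 1) * ∏ v ∈ S \ T, 1 := by
    intro T hT
    rw [Finset.mem_powerset] at hT
    unfold sgn
    rw [← Finset.prod_sdiff hT, mul_comm]
    congr 1
    · refine Finset.prod_congr rfl fun v hv => ?_
      unfold spin
      rw [if_pos hv]
    · refine Finset.prod_congr rfl fun v hv => ?_
      unfold spin
      rw [if_neg (Finset.mem_sdiff.mp hv).2]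
      split_ifs <;> rfl
  rw [Finset.sum_congr rfl h1, ← Finset.prod_add]
  by_cases h : A = 0
  · rw [ind_true h, mul_one, h, ← Finset.prod_const]
    refine Finset.prod_congr rfl fun v _ => ?_
    rw [Pi.zero_apply, if_neg zero_ne_one]
    norm_num
  · rw [ind_false h, mul_zero]
    have h3 : ∃ v, A v ≠ 0 := by
      by_contra h4
      push Not at h4
      exact h (funext h4)
    obtain ⟨v, hv⟩ := h3
    have hvS : v ∈ S := by
      by_contra h4
      exact hv (hA v h4)
    have hv1 : A v = 1 := by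
      have : ∀ z : ZMod 2, z ≠ 0 → z = 1 := by decide
      exact this _ hv
    refine Finset.prod_eq_zero hvS ?_
    rw [if_pos hv1]
    norm_num

theorem exp_bond (β b : ℝ) (hb : b = 1 ∨ b = -1) :
    Real.exp (β * b) = Real.cosh β * (1 + Real.tanh β * b) := by
  have hc : Real.cosh β ≠ 0 := (Real.cosh_pos β).ne'
  rw [Real.tanh_eq_sinh_div_cosh]
  rcases hb with rfl | rfl
  · rw [mul_one, mul_one]
    field_simp
    rw [Real.cosh_add_sinh]
  · have h1 : Real.cosh β * (1 + Real.sinh β / Real.cosh β * -1) = Real.cosh β - Real.sinh β := by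
      field_simp
      ring
    rw [h1, Real.cosh_sub_sinh, mul_neg, mul_one]

theorem bond_pm (e : Ed d) (T : Finset (Vx d)) : bond e T = 1 ∨ bond e T = -1 := by
  unfold bond spin
  split_ifs <;> norm_num

theorem ZZ_loop (x : ℝ) (E : Finset (Ed d)) (A : Vx d → ZMod 2) :
    ZZ (loopM x) E A = ∑ η ∈ E.powerset, ind (bd η = A) * x ^ η.card := by
  unfold ZZ EL loopM
  refine Finset.sum_congr rfl fun η _ => ?_
  simp only [one_smul, one_pow, mul_one]

theorem ZA_eq_ZZ (x : ℝ) (E : Finset (Ed d)) (A : Vx d → ZMod 2) :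
    ZA bde (fun _ => x) E A = ZZ (loopM x) E A := by
  rw [ZZ_loop]
  unfold ZA
  refine Finset.sum_congr rfl fun η _ => ?_
  rw [Finset.prod_const, bdm_bde]

/-- high temperature expansion of the unnormalised correlations -/
theorem GI_sgn (S : Finset (Vx d)) (β : ℝ) (A : Vx d → ZMod 2) (hA : ∀ v, v ∉ S → A v = 0) :
    GI S (edg S) β (fun T => sgn S A T) =
      2 ^ S.card * Real.cosh β ^ (edg S).card * ZZ (loopM (Real.tanh β)) (edg S) A := by
  classical
  unfold GI
  have h1 : ∀ T ∈ S.powerset, sgn S A T * Real.exp (β * ∑ e ∈ edg S, bond e T) =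
      Real.cosh β ^ (edg S).card * ∑ η ∈ (edg S).powerset,
        Real.tanh β ^ η.card * sgn S (A + bd η) T := by
    intro T _
    have h3 : Real.exp (β * ∑ e ∈ edg S, bond e T) =
        ∏ e ∈ edg S, (Real.cosh β * (1 + Real.tanh β * bond e T)) := by
      rw [Finset.mul_sum, Real.exp_sum]
      exact Finset.prod_congr rfl fun e _ => exp_bond β _ (bond_pm e T)
    rw [h3, Finset.prod_mul_distrib, Finset.prod_const]
    have h4 : ∏ e ∈ edg S, (1 + Real.tanh β * bond e T) =
        ∑ η ∈ (edg S).powerset, ∏ e ∈ η, (Real.tanh β * bond e T) := by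
      rw [Finset.prod_one_add]
    rw [h4, mul_left_comm, Finset.mul_sum]
    congr 1
    refine Finset.sum_congr rfl fun η hη => ?_
    rw [Finset.mem_powerset] at hη
    rw [Finset.prod_mul_distrib, Finset.prod_const, sgn_add, sgn_bd S T η hη]
    ring
  rw [Finset.sum_congr rfl h1, ← Finset.mul_sum, Finset.sum_comm, ZZ_loop, Finset.mul_sum,
    Finset.mul_sum]
  refine Finset.sum_congr rfl fun η hη => ?_
  rw [Finset.mem_powerset] at hη
  rw [← Finset.mul_sum, sum_sgn S (A + bd η) (fun v hv => by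
    rw [Pi.add_apply, hA v hv, bd_supp hη hv, add_zero])]
  have h5 : ind (A + bd η = 0) = ind (bd η = A) := by
    refine ind_congr ⟨fun h => ?_, fun h => by rw [h, two_fun]⟩
    calc bd η = (A + A) + bd η := by rw [two_fun, zero_add]
      _ = A + (A + bd η) := by abel
      _ = A := by rw [h, add_zero]
  rw [h5]
  ring

/-- **high temperature expansion** of the free two point function -/
theorem cf_eq (S : Finset (Vx d)) (β : ℝ) (u v : Vx d) (hu : u ∈ S) (hv : v ∈ S) :
    cf S β u v = ZZ (loopM (Real.tanh β)) (edg S) (pt u v) /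
      ZZ (loopM (Real.tanh β)) (edg S) 0 := by
  classical
  have hA : ∀ x, x ∉ S → pt u v x = 0 := by
    intro x hx
    have hpt : pt u v x = (if x = u then 1 else 0) + (if x = v then (1 : ZMod 2) else 0) := by
      unfold pt
      rw [Pi.add_apply, Pi.single_apply, Pi.single_apply]
    rw [hpt, if_neg (fun h : x = u => hx (h ▸ hu)), if_neg (fun h : x = v => hx (h ▸ hv)),
      add_zero]
  unfold cf av
  have h1 : GI S (edg S) β (fun T => spin T u * spin T v) =
      GI S (edg S) β (fun T => sgn S (pt u v) T) := by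
    congr 1
    funext T
    exact (sgn_pt S T u v hu hv).symm
  have h3 : GI S (edg S) β (fun _ => 1) = GI S (edg S) β (fun T => sgn S 0 T) := by
    congr 1
    funext T
    exact (sgn_zero S T).symm
  rw [h1, h3, GI_sgn S β _ hA, GI_sgn S β 0 fun _ _ => rfl]
  have hc : (2 : ℝ) ^ S.card * Real.cosh β ^ (edg S).card ≠ 0 :=
    mul_ne_zero (pow_ne_zero _ two_ne_zero) (pow_ne_zero _ (Real.cosh_pos β).ne')
  exact mul_div_mul_left _ _ hc

theorem ZA_zero_pos {x : Ed d → ℝ} {E : Finset (Ed d)} (h : ∀ e ∈ E, 0 ≤ x e) :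
    0 < ZA bde x E 0 := by
  unfold ZA
  have h1 : ∀ η ∈ E.powerset, 0 ≤ ind (bdm bde η = 0) * ∏ e ∈ η, x e := by
    intro η hη
    rw [Finset.mem_powerset] at hη
    exact mul_nonneg (ind_nonneg _) (Finset.prod_nonneg fun e he => h e (hη he))
  refine lt_of_lt_of_le ?_ (Finset.single_le_sum h1 (Finset.empty_mem_powerset E))
  rw [ind_true bdm_empty, Finset.prod_empty, one_mul]
  exact zero_lt_one

/-- the hypothesis of `LU_graph` from the two point function of the shell -/
theorem ZA_of_cf (S : Finset (Vx d)) {β c : ℝ} (hβ : 0 ≤ β) (u v : Vx d) (hu : u ∈ S) (hv : v ∈ S)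
    (h : c ≤ cf S β u v) : c * ZA bde (fun _ => Real.tanh β) (edg S) 0 ≤
      ZA bde (fun _ => Real.tanh β) (edg S) (pt u v) := by
  have h0 : 0 ≤ Real.tanh β := by
    rw [Real.tanh_eq_sinh_div_cosh]
    exact div_nonneg (Real.sinh_nonneg_iff.mpr hβ) (Real.cosh_pos β).le
  rw [cf_eq S β u v hu hv] at h
  have h3 : 0 < ZZ (loopM (Real.tanh β)) (edg S) 0 := by
    rw [← ZA_eq_ZZ]
    exact ZA_zero_pos fun _ _ => h0
  rw [ZA_eq_ZZ, ZA_eq_ZZ]
  exact (le_div_iff₀ h3).mp h

end Pool.Agent.FK1
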