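import Pool.Agent.FK1.Fk

/-!
# Block FK1, part 3: the thinned FK law dominates FK with smaller weights; domination for the loop
O(1) model with sources plus Bernoulli; Markov property; shells (helper56)
-/

set_option autoImplicit false
set_option linter.unusedSectionVars false

namespace Pool.Agent.FK1

open Finset
open Pool.Agent.SRC (ind ind_true ind_false ind_nonneg ind_le_one ind_mono ind_congr)

section

variable {ε G : Type*} [DecidableEq ε] [AddCommGroup G] {δ : ε → G}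

/-- the law of the thinned FK configuration -/
noncomputable def tau (δ : ε → G) (x κ : ε → ℝ) (E c : Finset ε) : ℝ :=
  ∑ t ∈ (E \ c).powerset, wF δ x E (c ∪ t) * wB κ (c ∪ t) c

theorem sum_tau (x κ : ε → ℝ) (E : Finset ε) (f : Finset ε → ℝ) :
    ∑ c ∈ E.powerset, tau δ x κ E c * f c = ∑ ω ∈ E.powerset, wF δ x E ω * thin κ f ω := by
  classical
  have h1 : ∀ c ∈ E.powerset, tau δ x κ E c * f c = ∑ ω ∈ E.powerset,
      if c ⊆ ω then wF δ x E ω * (wB κ ω c * f c) else 0 := by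
    intro c hc
    rw [Finset.mem_powerset] at hc
    rw [← Finset.sum_filter, ← sum_powerset_sdiff E c hc fun ω => wF δ x E ω * (wB κ ω c * f c)]
    unfold tau
    rw [Finset.sum_mul]
    refine Finset.sum_congr rfl fun t _ => ?_
    ring
  rw [Finset.sum_congr rfl h1, Finset.sum_comm]
  refine Finset.sum_congr rfl fun ω hω => ?_
  rw [Finset.mem_powerset] at hω
  rw [← Finset.sum_filter]
  have h4 : E.powerset.filter (fun c => c ⊆ ω) = ω.powerset := by
    ext η
    rw [Finset.mem_filter, Finset.mem_powerset, Finset.mem_powerset]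
    exact ⟨fun h => h.2, fun h => ⟨h.trans hω, h⟩⟩
  rw [h4]
  unfold thin
  rw [Finset.mul_sum]

theorem thin_one (κ : ε → ℝ) (ω : Finset ε) : thin κ (fun _ => 1) ω = 1 := by
  unfold thin
  rw [← Finset.sum_mul, sum_wB, one_mul]

theorem tau_nonneg {x κ : ε → ℝ} {E : Finset ε} (hx0 : ∀ e ∈ E, 0 ≤ x e) (hx1 : ∀ e ∈ E, x e ≤ 1)
    (h0 : ∀ e ∈ E, 0 ≤ κ e) (h1 : ∀ e ∈ E, κ e ≤ 1) {c : Finset ε} (hc : c ⊆ E) :
    0 ≤ tau δ x κ E c := by
  refine Finset.sum_nonneg fun t ht => ?_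
  rw [Finset.mem_powerset] at ht
  have h2 : c ∪ t ⊆ E := Finset.union_subset hc (ht.trans Finset.sdiff_subset)
  exact mul_nonneg (wF_nonneg hx0 hx1 h2) (wB_nonneg (fun e he => h0 e (h2 he))
    (fun e he => h1 e (h2 he)) Finset.subset_union_left)

theorem tau_pos {x κ : ε → ℝ} {E : Finset ε} (hx0 : ∀ e ∈ E, 0 < x e) (hx1 : ∀ e ∈ E, x e < 1)
    (h0 : ∀ e ∈ E, 0 < κ e) (h1 : ∀ e ∈ E, κ e ≤ 1) {c : Finset ε} (hc : c ⊆ E) :
    0 < tau δ x κ E c := by
  have hx0' : ∀ e ∈ E, 0 ≤ x e := fun e he => (hx0 e he).le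
  have hx1' : ∀ e ∈ E, x e ≤ 1 := fun e he => (hx1 e he).le
  have hnn : ∀ t ∈ (E \ c).powerset, 0 ≤ wF δ x E (c ∪ t) * wB κ (c ∪ t) c := by
    intro t ht
    rw [Finset.mem_powerset] at ht
    have h2 : c ∪ t ⊆ E := Finset.union_subset hc (ht.trans Finset.sdiff_subset)
    exact mul_nonneg (wF_nonneg hx0' hx1' h2) (wB_nonneg (fun e he => (h0 e (h2 he)).le)
      (fun e he => h1 e (h2 he)) Finset.subset_union_left)
  have h3 := Finset.single_le_sum hnn (Finset.empty_mem_powerset (E \ c))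
  refine lt_of_lt_of_le ?_ h3
  rw [Finset.union_empty]
  refine mul_pos (wF_pos hx0 hx1 hc) ?_
  unfold wB
  rw [sdiff_self]
  simp only [Finset.bot_eq_empty, Finset.prod_empty, mul_one]
  exact Finset.prod_pos fun e he => h0 e (hc he)

private lemma tau_aux {i' i r r' κ u : ℝ} (hi : i = 0 ∨ i = 1) (hi' : i' = 0 ∨ i' = 1)
    (hii : i' ≤ i) (hr : 0 ≤ r) (hr' : 0 ≤ r') (hκ0 : 0 ≤ κ) (hκ : κ ≤ 1) (hu : 0 ≤ u)
    (hc : r' * (1 + 2 * (1 - κ) * r) ≤ κ * r) :
    r' * (1 + i') * (u + (1 - κ) * (r * (1 + i) * u)) ≤ κ * (r * (1 + i) * u) := by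
  have h1 : r' * (1 + i') * (1 + (1 - κ) * (r * (1 + i))) ≤ κ * (r * (1 + i)) := by
    have hk : 0 ≤ (1 - κ) * r := mul_nonneg (by linarith) hr
    have hkr : 0 ≤ κ * r := mul_nonneg hκ0 hr
    have hrk : 0 ≤ r' * ((1 - κ) * r) := mul_nonneg hr' hk
    rcases hi with rfl | rfl <;> rcases hi' with rfl | rfl
    · nlinarith
    · norm_num at hii
    · nlinarith
    · nlinarith
  calc r' * (1 + i') * (u + (1 - κ) * (r * (1 + i) * u))
      = (r' * (1 + i') * (1 + (1 - κ) * (r * (1 + i)))) * u := by ring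
    _ ≤ (κ * (r * (1 + i))) * u := mul_le_mul_of_nonneg_right h1 hu
    _ = κ * (r * (1 + i) * u) := by ring

private lemma ind_01 (p : Prop) : ind p = 0 ∨ ind p = 1 := by
  by_cases h : p
  · exact Or.inr (ind_true h)
  · exact Or.inl (ind_false h)

/-- the thinned FK law dominates FK with weights `y` -/
theorem SD_tau (h2 : ∀ g : G, g + g = 0) {x y κ : ε → ℝ} {E : Finset ε}
    (hx0 : ∀ e ∈ E, 0 < x e) (hx1 : ∀ e ∈ E, x e < 1) (hy0 : ∀ e ∈ E, 0 < y e)
    (hy1 : ∀ e ∈ E, y e < 1) (h0 : ∀ e ∈ E, 0 < κ e) (h1 : ∀ e ∈ E, κ e ≤ 1)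
    (hc : ∀ e ∈ E, y e / (1 - y e) * (1 + 2 * (1 - κ e) * (x e / (1 - x e))) ≤
      κ e * (x e / (1 - x e))) : SD E (wF δ y E) (tau δ x κ E) := by
  have hx0' : ∀ e ∈ E, 0 ≤ x e := fun e he => (hx0 e he).le
  have hx1' : ∀ e ∈ E, x e ≤ 1 := fun e he => (hx1 e he).le
  refine SD_of_lat (fun s hs => (wF_pos hy0 hy1 hs).le) (fun s hs => (tau_pos hx0 hx1 h0 h1 hs).le)
    (lat_of_ratio (fun s hs => wF_pos hy0 hy1 hs) (fun s hs => tau_pos hx0 hx1 h0 h1 hs) ?_)
  intro c t hct htE e heE het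
  have hec : e ∉ c := fun h => het (hct h)
  have py : 0 < 1 - y e := sub_pos.mpr (hy1 e heE)
  have px : 0 < 1 - x e := sub_pos.mpr (hx1 e heE)
  have a1 := wF_insert (δ := δ) h2 (x := y) heE hec
  have a1' : wF δ y E (insert e c) =
      y e / (1 - y e) * (1 + ind (FF δ (δ e) c)) * wF δ y E c := by
    field_simp
    linarith
  set R := E \ insert e t with hR
  have heR : e ∉ R := by
    rw [hR, Finset.mem_sdiff]
    exact fun h => h.2 (Finset.mem_insert_self e t)
  have hEt : E \ t = insert e R := by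
    ext a
    simp only [hR, Finset.mem_sdiff, Finset.mem_insert]
    constructor
    · rintro ⟨h3, h4⟩
      by_cases h5 : a = e
      · exact Or.inl h5
      · exact Or.inr ⟨h3, fun h6 => h6.elim h5 h4⟩
    · rintro (h3 | ⟨h3, h4⟩)
      · exact ⟨h3 ▸ heE, h3 ▸ het⟩
      · exact ⟨h3, fun h5 => h4 (Or.inr h5)⟩
  -- the common coefficients
  let co : Finset ε → ℝ := fun D => (∏ a ∈ t, κ a) * ∏ a ∈ D, (1 - κ a)
  have hRE : R ⊆ E := Finset.sdiff_subset
  have hco : ∀ D, D ⊆ R → 0 ≤ co D := fun D hD =>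
    mul_nonneg (Finset.prod_nonneg fun a ha => (h0 a (htE ha)).le)
      (Finset.prod_nonneg fun a ha => sub_nonneg.mpr (h1 a (hRE (hD ha))))
  have hdis : ∀ D, D ⊆ R → Disjoint t D := by
    intro D hD
    rw [Finset.disjoint_left]
    intro a ha haD
    have := hD haD
    rw [hR, Finset.mem_sdiff] at this
    exact this.2 (Finset.mem_insert_of_mem ha)
  have hsd1 : ∀ D, D ⊆ R → (t ∪ D) \ t = D := fun D hD => by
    rw [Finset.union_sdiff_left]
    exact Finset.sdiff_eq_self_of_disjoint (hdis D hD).symm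
  have t1 : tau δ x κ E (insert e t) =
      ∑ D ∈ R.powerset, co D * (κ e * wF δ x E (insert e (t ∪ D))) := by
    unfold tau
    refine Finset.sum_congr rfl fun D hD => ?_
    rw [Finset.mem_powerset] at hD
    have heD : e ∉ D := fun h => heR (hD h)
    have e1 : insert e t ∪ D = insert e (t ∪ D) := Finset.insert_union e t D
    rw [e1]
    unfold wB
    have e2 : insert e (t ∪ D) \ insert e t = D := by
      ext a
      simp only [Finset.mem_sdiff, Finset.mem_insert, Finset.mem_union]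
      constructor
      · rintro ⟨h3 | h3 | h3, h4⟩
        · exact absurd (Or.inl h3) h4
        · exact absurd (Or.inr h3) h4
        · exact h3
      · intro h3
        refine ⟨Or.inr (Or.inr h3), fun h4 => h4.elim (fun h5 => heD (h5 ▸ h3)) fun h5 => ?_⟩
        exact (Finset.disjoint_left.mp (hdis D hD) h5) h3
    rw [e2, Finset.prod_insert het]
    simp only [co]
    ring
  have t2 : tau δ x κ E t = ∑ D ∈ R.powerset, co D * (wF δ x E (t ∪ D) +
      (1 - κ e) * wF δ x E (insert e (t ∪ D))) := by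
    unfold tau
    rw [hEt, Finset.sum_powerset_insert heR, ← Finset.sum_add_distrib]
    refine Finset.sum_congr rfl fun D hD => ?_
    rw [Finset.mem_powerset] at hD
    have heD : e ∉ D := fun h => heR (hD h)
    have e1 : t ∪ insert e D = insert e (t ∪ D) := Finset.union_insert e t D
    rw [e1]
    unfold wB
    have e3 : insert e (t ∪ D) \ t = insert e D := by
      rw [Finset.insert_sdiff_of_notMem _ het, hsd1 D hD]
    rw [hsd1 D hD, e3, Finset.prod_insert heD]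
    simp only [co]
    ring
  rw [a1', t1, t2]
  have hwc : 0 < wF δ y E c := wF_pos hy0 hy1 (hct.trans htE)
  have main : y e / (1 - y e) * (1 + ind (FF δ (δ e) c)) *
      ∑ D ∈ R.powerset, co D * (wF δ x E (t ∪ D) + (1 - κ e) * wF δ x E (insert e (t ∪ D))) ≤
      ∑ D ∈ R.powerset, co D * (κ e * wF δ x E (insert e (t ∪ D))) := by
    rw [Finset.mul_sum]
    refine Finset.sum_le_sum fun D hD => ?_
    rw [Finset.mem_powerset] at hD
    have htD : t ∪ D ⊆ E := Finset.union_subset htE (hD.trans hRE)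
    have hetD : e ∉ t ∪ D := by
      rw [Finset.mem_union]
      exact fun h => h.elim het fun h => heR (hD h)
    have b1 := wF_insert (δ := δ) h2 (x := x) heE hetD
    have b2 : wF δ x E (insert e (t ∪ D)) =
        x e / (1 - x e) * (1 + ind (FF δ (δ e) (t ∪ D))) * wF δ x E (t ∪ D) := by
      field_simp
      linarith
    rw [b2]
    have hi : ind (FF δ (δ e) c) ≤ ind (FF δ (δ e) (t ∪ D)) :=
      ind_mono fun h => h.mono (hct.trans Finset.subset_union_left)
    have := tau_aux (u := wF δ x E (t ∪ D)) (ind_01 (FF δ (δ e) (t ∪ D)))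
      (ind_01 (FF δ (δ e) c)) hi (div_pos (hx0 e heE) px).le (div_pos (hy0 e heE) py).le
      (h0 e heE).le (h1 e heE) (wF_nonneg hx0' hx1' htD) (hc e heE)
    calc y e / (1 - y e) * (1 + ind (FF δ (δ e) c)) * (co D * (wF δ x E (t ∪ D) +
          (1 - κ e) * (x e / (1 - x e) * (1 + ind (FF δ (δ e) (t ∪ D))) * wF δ x E (t ∪ D))))
        = co D * (y e / (1 - y e) * (1 + ind (FF δ (δ e) c)) * (wF δ x E (t ∪ D) +
          (1 - κ e) * (x e / (1 - x e) * (1 + ind (FF δ (δ e) (t ∪ D))) * wF δ x E (t ∪ D)))) := by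
          ring
      _ ≤ co D * (κ e * (x e / (1 - x e) * (1 + ind (FF δ (δ e) (t ∪ D))) * wF δ x E (t ∪ D))) :=
          mul_le_mul_of_nonneg_left this (hco D hD)
  calc y e / (1 - y e) * (1 + ind (FF δ (δ e) c)) * wF δ y E c * ∑ D ∈ R.powerset, co D *
        (wF δ x E (t ∪ D) + (1 - κ e) * wF δ x E (insert e (t ∪ D)))
      = wF δ y E c * (y e / (1 - y e) * (1 + ind (FF δ (δ e) c)) *
        ∑ D ∈ R.powerset, co D * (wF δ x E (t ∪ D) +
          (1 - κ e) * wF δ x E (insert e (t ∪ D)))) := by ring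
    _ ≤ wF δ y E c * ∑ D ∈ R.powerset, co D * (κ e * wF δ x E (insert e (t ∪ D))) :=
        mul_le_mul_of_nonneg_left main hwc.le

/-- the hypotheses on the parameters: `x` = weights of the loop O(1) model, `s` = Bernoulli
parameters, `y` = weights of the dominated FK law -/
structure Par (x s y : ε → ℝ) (E : Finset ε) : Prop where
  x0 : ∀ e ∈ E, 0 < x e
  x1 : ∀ e ∈ E, x e < 1
  y0 : ∀ e ∈ E, 0 < y e
  y1 : ∀ e ∈ E, y e < 1
  s0 : ∀ e ∈ E, 0 < s e
  sx : ∀ e ∈ E, s e ≤ x e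
  c : ∀ e ∈ E, y e / (1 - y e) * (1 + 2 * (1 - s e / x e) * (x e / (1 - x e))) ≤
      s e / x e * (x e / (1 - x e))

theorem Par.mono {x s y : ε → ℝ} {E T : Finset ε} (h : Par x s y E) (hT : T ⊆ E) : Par x s y T :=
  ⟨fun e he => h.x0 e (hT he), fun e he => h.x1 e (hT he), fun e he => h.y0 e (hT he),
    fun e he => h.y1 e (hT he), fun e he => h.s0 e (hT he), fun e he => h.sx e (hT he),
    fun e he => h.c e (hT he)⟩

theorem YS_congr {x s s' : ε → ℝ} {E : Finset ε} (h : ∀ e ∈ E, s e = s' e) (A : G)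
    (f : Finset ε → ℝ) : YS δ x s E A f = YS δ x s' E A f := by
  unfold YS
  refine Finset.sum_congr rfl fun η _ => ?_
  congr 1
  refine Finset.sum_congr rfl fun b hb => ?_
  rw [Finset.mem_powerset] at hb
  congr 1
  unfold wB
  have e1 : ∏ e ∈ b, s e = ∏ e ∈ b, s' e := Finset.prod_congr rfl fun e he => h e (hb he)
  have e2 : ∏ e ∈ E \ b, (1 - s e) = ∏ e ∈ E \ b, (1 - s' e) :=
    Finset.prod_congr rfl fun e he => by rw [h e (Finset.sdiff_subset he)]
  rw [e1, e2]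

theorem sum_wF_pos {x : ε → ℝ} {E : Finset ε} (h0 : ∀ e ∈ E, 0 < x e) (h1 : ∀ e ∈ E, x e < 1) :
    0 < ∑ ω ∈ E.powerset, wF δ x E ω := by
  refine Finset.sum_pos (fun ω hω => wF_pos h0 h1 (Finset.mem_powerset.mp hω)) ?_
  exact ⟨∅, Finset.empty_mem_powerset E⟩

/-- MAIN DOMINATION: `η^A ∪ Ber(s)` dominates FK with weights `y` on `E`, for EVERY `A` -/
theorem YS_dom (h2 : ∀ g : G, g + g = 0) {x s y : ε → ℝ} {E : Finset ε} (hp : Par x s y E)
    (A : G) {f : Finset ε → ℝ} (hf : Inc E f) :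
    (∑ ω ∈ E.powerset, wF δ y E ω * f ω) * ZA δ x E A ≤
      (∑ ω ∈ E.powerset, wF δ y E ω) * YS δ x s E A f := by
  have hκ0 : ∀ e ∈ E, 0 < s e / x e := fun e he => div_pos (hp.s0 e he) (hp.x0 e he)
  have hκ1 : ∀ e ∈ E, s e / x e ≤ 1 := fun e he => (div_le_one (hp.x0 e he)).mpr (hp.sx e he)
  have hs : YS δ x s E A f = YS δ x (fun e => s e / x e * x e) E A f :=
    YS_congr (fun e he => (div_mul_cancel₀ _ (hp.x0 e he).ne').symm) A f
  have hx0' : ∀ e ∈ E, 0 ≤ x e := fun e he => (hp.x0 e he).le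
  have hx1' : ∀ e ∈ E, x e ≤ 1 := fun e he => (hp.x1 e he).le
  have a1 := YS_ge_thin (δ := δ) (κ := fun e => s e / x e) hx0' hx1' (fun e he => (hκ0 e he).le) hκ1
    A hf
  rw [← hs, YS_coupling h2] at a1
  have hT : Inc E (thin (fun e => s e / x e) f) := thin_Inc (fun e he => (hκ0 e he).le) hκ1 hf
  have a2 := wF_SD_FF (δ := δ) h2 hp.x0 hp.x1 A _ hT
  have a3 := SD_tau (δ := δ) h2 hp.x0 hp.x1 hp.y0 hp.y1 hκ0 hκ1 hp.c f hf
  rw [sum_tau] at a3
  have a4 : ∑ c ∈ E.powerset, tau δ x (fun e => s e / x e) E c =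
      ∑ ω ∈ E.powerset, wF δ x E ω := by
    have := sum_tau (δ := δ) x (fun e => s e / x e) E fun _ => 1
    simp only [mul_one] at this
    rw [this]
    refine Finset.sum_congr rfl fun ω _ => ?_
    rw [thin_one, mul_one]
  rw [a4] at a3
  rw [ZA_eq h2]
  have pX : 0 < ∑ ω ∈ E.powerset, wF δ x E ω := sum_wF_pos hp.x0 hp.x1
  have pY : 0 < ∑ ω ∈ E.powerset, wF δ y E ω := sum_wF_pos hp.y0 hp.y1
  have pA : 0 ≤ ∑ ω ∈ E.powerset, wF δ x E ω * ind (FF δ A ω) :=
    Finset.sum_nonneg fun ω hω => mul_nonneg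
      (wF_nonneg hx0' hx1' (Finset.mem_powerset.mp hω)) (ind_nonneg _)
  refine le_of_mul_le_mul_right (a := ∑ ω ∈ E.powerset, wF δ x E ω) ?_ pX
  set SX := ∑ ω ∈ E.powerset, wF δ x E ω
  set SY := ∑ ω ∈ E.powerset, wF δ y E ω
  set SA := ∑ ω ∈ E.powerset, wF δ x E ω * ind (FF δ A ω)
  set SYf := ∑ ω ∈ E.powerset, wF δ y E ω * f ω
  set SXT := ∑ ω ∈ E.powerset, wF δ x E ω * thin (fun e => s e / x e) f ω
  set SAT := ∑ ω ∈ E.powerset, wF δ x E ω * ind (FF δ A ω) * thin (fun e => s e / x e) f ω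
  calc SYf * SA * SX = (SYf * SX) * SA := by ring
    _ ≤ (SY * SXT) * SA := mul_le_mul_of_nonneg_right a3 pA
    _ = SY * (SXT * SA) := by ring
    _ ≤ SY * (SX * SAT) := mul_le_mul_of_nonneg_left a2 pY.le
    _ ≤ SY * (SX * YS δ x s E A f) :=
        mul_le_mul_of_nonneg_left (mul_le_mul_of_nonneg_left a1 pX.le) pY.le
    _ = SY * YS δ x s E A f * SX := by ring

end

end Pool.Agent.FK1
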