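import Pool.Agent.FK1.Base

/-!
# Block FK1, part 2: even subgraphs, FK weights, domination (helper56)
-/

set_option autoImplicit false
set_option linter.unusedSectionVars false

namespace Pool.Agent.FK1

open Finset
open Pool.Agent.SRC (ind ind_true ind_false ind_nonneg ind_le_one ind_mono ind_congr)

section

variable {ε G : Type*} [DecidableEq ε] [AddCommGroup G]

/-- boundary of an edge set -/
def bdm (δ : ε → G) (η : Finset ε) : G := ∑ e ∈ η, δ e

/-- some subset of `ω` has boundary `A` -/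
def FF (δ : ε → G) (A : G) (ω : Finset ε) : Prop := ∃ η, η ⊆ ω ∧ bdm δ η = A

/-- the number of subsets of `ω` with boundary `A` -/
noncomputable def NN (δ : ε → G) (A : G) (ω : Finset ε) : ℝ :=
  ∑ η ∈ ω.powerset, ind (bdm δ η = A)

/-- FK weight (free boundary conditions on `E`, even subgraph form) -/
noncomputable def wF (δ : ε → G) (x : ε → ℝ) (E ω : Finset ε) : ℝ := wB x E ω * NN δ 0 ω

variable {δ : ε → G}

theorem bdm_empty : bdm δ ∅ = 0 := Finset.sum_empty

theorem bdm_union {s t : Finset ε} (h : Disjoint s t) : bdm δ (s ∪ t) = bdm δ s + bdm δ t :=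
  Finset.sum_union h

theorem bdm_symmDiff (h2 : ∀ g : G, g + g = 0) (s t : Finset ε) :
    bdm δ (symmDiff s t) = bdm δ s + bdm δ t := by
  have e1 : symmDiff s t = (s \ t) ∪ (t \ s) := rfl
  have e2 : s = (s \ t) ∪ (s ∩ t) := (Finset.sdiff_union_inter s t).symm
  have e3 : t = (t \ s) ∪ (s ∩ t) := by
    rw [Finset.inter_comm]
    exact (Finset.sdiff_union_inter t s).symm
  have d1 : Disjoint (s \ t) (s ∩ t) := Finset.disjoint_sdiff_inter s t
  have d2 : Disjoint (t \ s) (s ∩ t) := by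
    rw [Finset.inter_comm]
    exact Finset.disjoint_sdiff_inter t s
  have d3 : Disjoint (s \ t) (t \ s) := disjoint_sdiff_sdiff
  have f1 : bdm δ s = bdm δ (s \ t) + bdm δ (s ∩ t) := by
    conv_lhs => rw [e2]
    exact bdm_union d1
  have f2 : bdm δ t = bdm δ (t \ s) + bdm δ (s ∩ t) := by
    conv_lhs => rw [e3]
    exact bdm_union d2
  rw [e1, bdm_union d3, f1, f2]
  have := h2 (bdm δ (s ∩ t))
  calc bdm δ (s \ t) + bdm δ (t \ s)
      = bdm δ (s \ t) + bdm δ (t \ s) + 0 := (add_zero _).symm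
    _ = bdm δ (s \ t) + bdm δ (t \ s) + (bdm δ (s ∩ t) + bdm δ (s ∩ t)) := by rw [this]
    _ = _ := by abel

theorem FF.mono {A : G} {ω ω' : Finset ε} (h : ω ⊆ ω') (hF : FF δ A ω) : FF δ A ω' := by
  obtain ⟨η, h1, h3⟩ := hF
  exact ⟨η, h1.trans h, h3⟩

theorem FF.zero (ω : Finset ε) : FF δ 0 ω := ⟨∅, Finset.empty_subset ω, bdm_empty⟩

theorem FF.add (h2 : ∀ g : G, g + g = 0) {A B : G} {ω : Finset ε} (hA : FF δ A ω)
    (hB : FF δ B ω) : FF δ (A + B) ω := by
  obtain ⟨s, hs, rfl⟩ := hA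
  obtain ⟨t, ht, rfl⟩ := hB
  refine ⟨symmDiff s t, ?_, bdm_symmDiff h2 s t⟩
  exact Finset.union_subset (Finset.sdiff_subset.trans hs) (Finset.sdiff_subset.trans ht)

theorem NN_nonneg (A : G) (ω : Finset ε) : 0 ≤ NN δ A ω :=
  Finset.sum_nonneg fun _ _ => ind_nonneg _

theorem NN_zero_pos (ω : Finset ε) : 0 < NN δ 0 ω := by
  unfold NN
  refine lt_of_lt_of_le zero_lt_one ?_
  have : ind (bdm δ (∅ : Finset ε) = 0) ≤ ∑ η ∈ ω.powerset, ind (bdm δ η = 0) :=
    Finset.single_le_sum (f := fun η => ind (bdm δ η = 0)) (fun _ _ => ind_nonneg _)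
      (Finset.empty_mem_powerset ω)
  rwa [ind_true bdm_empty] at this

/-- the sets with boundary `A` are in bijection with the sets with boundary `0` if there is one -/
theorem NN_eq (h2 : ∀ g : G, g + g = 0) (A : G) (ω : Finset ε) :
    NN δ A ω = NN δ 0 ω * ind (FF δ A ω) := by
  by_cases h : FF δ A ω
  · rw [ind_true h, mul_one]
    obtain ⟨ζ, hζ, hA⟩ := h
    unfold NN
    have hsub : ∀ η, η ⊆ ω → symmDiff η ζ ⊆ ω := fun η hη =>
      Finset.union_subset (Finset.sdiff_subset.trans hη) (Finset.sdiff_subset.trans hζ)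
    refine Finset.sum_bij' (fun η _ => symmDiff η ζ) (fun η _ => symmDiff η ζ) ?_ ?_ ?_ ?_ ?_
    · intro η hη
      exact Finset.mem_powerset.mpr (hsub η (Finset.mem_powerset.mp hη))
    · intro η hη
      exact Finset.mem_powerset.mpr (hsub η (Finset.mem_powerset.mp hη))
    · intro η _
      exact symmDiff_symmDiff_cancel_right ζ η
    · intro η _
      exact symmDiff_symmDiff_cancel_right ζ η
    · intro η _
      refine ind_congr ?_
      rw [bdm_symmDiff h2, hA]
      constructor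
      · intro h3
        rw [h3]
        exact h2 A
      · intro h3
        have h4 : bdm δ η = bdm δ η + (A + A) := by rw [h2 A, add_zero]
        rw [h4, ← add_assoc, h3, zero_add]
  · rw [ind_false h, mul_zero]
    unfold NN
    refine Finset.sum_eq_zero fun η hη => ind_false fun h3 => h ⟨η, Finset.mem_powerset.mp hη, h3⟩

/-- adding an edge -/
theorem NN_insert (h2 : ∀ g : G, g + g = 0) {ω : Finset ε} {e : ε} (he : e ∉ ω) :
    NN δ 0 (insert e ω) = NN δ 0 ω * (1 + ind (FF δ (δ e) ω)) := by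
  have h1 : NN δ 0 (insert e ω) = NN δ 0 ω + NN δ (δ e) ω := by
    unfold NN
    rw [Finset.sum_powerset_insert he]
    congr 1
    refine Finset.sum_congr rfl fun η hη => ind_congr ?_
    have heη : e ∉ η := fun h => he (Finset.mem_powerset.mp hη h)
    have h3 : bdm δ (insert e η) = δ e + bdm δ η := by
      unfold bdm
      rw [Finset.sum_insert heη]
    rw [h3]
    constructor
    · intro h4
      have h5 : bdm δ η = (δ e + δ e) + bdm δ η := by rw [h2, zero_add]
      rw [h5, add_assoc, h4, add_zero]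
    · intro h4
      rw [h4]
      exact h2 _
  rw [h1, NN_eq h2 (δ e)]
  ring

theorem wB_insert {x : ε → ℝ} {E ω : Finset ε} {e : ε} (heE : e ∈ E) (he : e ∉ ω) :
    (1 - x e) * wB x E (insert e ω) = x e * wB x E ω := by
  unfold wB
  rw [Finset.prod_insert he]
  have h1 : E \ ω = insert e (E \ insert e ω) := by
    ext a
    simp only [Finset.mem_sdiff, Finset.mem_insert]
    constructor
    · rintro ⟨h3, h4⟩
      by_cases h5 : a = e
      · exact Or.inl h5
      · exact Or.inr ⟨h3, fun h6 => h6.elim h5 h4⟩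
    · rintro (h3 | ⟨h3, h4⟩)
      · exact ⟨h3 ▸ heE, h3 ▸ he⟩
      · exact ⟨h3, fun h5 => h4 (Or.inr h5)⟩
  have h2 : e ∉ E \ insert e ω := by
    rw [Finset.mem_sdiff]
    exact fun h3 => h3.2 (Finset.mem_insert_self e ω)
  rw [h1, Finset.prod_insert h2]
  ring

theorem wF_nonneg {x : ε → ℝ} {E : Finset ε} (h0 : ∀ e ∈ E, 0 ≤ x e) (h1 : ∀ e ∈ E, x e ≤ 1)
    {ω : Finset ε} (hω : ω ⊆ E) : 0 ≤ wF δ x E ω := mul_nonneg (wB_nonneg h0 h1 hω) (NN_nonneg _ _)

theorem wF_pos {x : ε → ℝ} {E : Finset ε} (h0 : ∀ e ∈ E, 0 < x e) (h1 : ∀ e ∈ E, x e < 1)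
    {ω : Finset ε} (hω : ω ⊆ E) : 0 < wF δ x E ω := mul_pos (wB_pos h0 h1 hω) (NN_zero_pos _)

theorem wF_insert (h2 : ∀ g : G, g + g = 0) {x : ε → ℝ} {E ω : Finset ε} {e : ε} (heE : e ∈ E)
    (he : e ∉ ω) : (1 - x e) * wF δ x E (insert e ω) =
      x e * (1 + ind (FF δ (δ e) ω)) * wF δ x E ω := by
  unfold wF
  rw [NN_insert h2 he]
  have := wB_insert (x := x) heE he
  calc (1 - x e) * (wB x E (insert e ω) * (NN δ 0 ω * (1 + ind (FF δ (δ e) ω))))
      = ((1 - x e) * wB x E (insert e ω)) * (NN δ 0 ω * (1 + ind (FF δ (δ e) ω))) := by ring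
    _ = (x e * wB x E ω) * (NN δ 0 ω * (1 + ind (FF δ (δ e) ω))) := by rw [this]
    _ = _ := by ring

/-- the lattice condition for two FK weights with `y ≤ x` -/
theorem wF_lat (h2 : ∀ g : G, g + g = 0) {x y : ε → ℝ} {E : Finset ε} (hy0 : ∀ e ∈ E, 0 < y e)
    (hyx : ∀ e ∈ E, y e ≤ x e) (hx1 : ∀ e ∈ E, x e < 1) :
    ∀ a, a ⊆ E → ∀ b, b ⊆ E → wF δ y E a * wF δ x E b ≤ wF δ y E (a ∩ b) * wF δ x E (a ∪ b) := by
  have hx0 : ∀ e ∈ E, 0 < x e := fun e he => (hy0 e he).trans_le (hyx e he)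
  have hy1 : ∀ e ∈ E, y e < 1 := fun e he => (hyx e he).trans_lt (hx1 e he)
  refine lat_of_ratio (fun s hs => wF_pos hy0 hy1 hs) (fun s hs => wF_pos hx0 hx1 hs) ?_
  intro c t hct htE e heE het
  have hec : e ∉ c := fun h => het (hct h)
  have a1 := wF_insert (δ := δ) h2 (x := y) heE hec
  have a2 := wF_insert (δ := δ) h2 (x := x) heE het
  have p1 : 0 < 1 - y e := sub_pos.mpr (hy1 e heE)
  have p2 : 0 < 1 - x e := sub_pos.mpr (hx1 e heE)
  have hi : ind (FF δ (δ e) c) ≤ ind (FF δ (δ e) t) := ind_mono fun h => h.mono hct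
  have hi0 := ind_nonneg (FF δ (δ e) c)
  have w1 : 0 < wF δ y E c := wF_pos hy0 hy1 (hct.trans htE)
  have w2 : 0 < wF δ x E t := wF_pos hx0 hx1 htE
  refine le_of_mul_le_mul_left (a := (1 - y e) * (1 - x e)) ?_ (mul_pos p1 p2)
  calc (1 - y e) * (1 - x e) * (wF δ y E (insert e c) * wF δ x E t)
      = ((1 - y e) * wF δ y E (insert e c)) * ((1 - x e) * wF δ x E t) := by ring
    _ = (y e * (1 + ind (FF δ (δ e) c)) * wF δ y E c) * ((1 - x e) * wF δ x E t) := by rw [a1]
    _ = (y e * (1 - x e) * (1 + ind (FF δ (δ e) c))) * (wF δ y E c * wF δ x E t) := by ring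
    _ ≤ (x e * (1 - y e) * (1 + ind (FF δ (δ e) t))) * (wF δ y E c * wF δ x E t) := by
        refine mul_le_mul_of_nonneg_right ?_ (mul_pos w1 w2).le
        refine mul_le_mul ?_ (by linarith) (by linarith)
          (mul_nonneg (hx0 e heE).le p1.le)
        have := hyx e heE
        nlinarith
    _ = (1 - y e) * wF δ y E c * (x e * (1 + ind (FF δ (δ e) t)) * wF δ x E t) := by ring
    _ = (1 - y e) * wF δ y E c * ((1 - x e) * wF δ x E (insert e t)) := by rw [a2]
    _ = (1 - y e) * (1 - x e) * (wF δ y E c * wF δ x E (insert e t)) := by ring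

/-- comparison in the edge weights -/
theorem wF_SD (h2 : ∀ g : G, g + g = 0) {x y : ε → ℝ} {E : Finset ε} (hy0 : ∀ e ∈ E, 0 < y e)
    (hyx : ∀ e ∈ E, y e ≤ x e) (hx1 : ∀ e ∈ E, x e < 1) : SD E (wF δ y E) (wF δ x E) :=
  SD_of_lat (fun _ hs => wF_nonneg (fun e he => (hy0 e he).le)
      (fun e he => ((hyx e he).trans_lt (hx1 e he)).le) hs)
    (fun _ hs => wF_nonneg (fun e he => ((hy0 e he).trans_le (hyx e he)).le)
      (fun e he => (hx1 e he).le) hs) (wF_lat h2 hy0 hyx hx1)

/-- the FKG inequality for FK-Ising -/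
theorem wF_fkg (h2 : ∀ g : G, g + g = 0) {x : ε → ℝ} {E : Finset ε} (hx0 : ∀ e ∈ E, 0 < x e)
    (hx1 : ∀ e ∈ E, x e < 1) {f g : Finset ε → ℝ} (hf : Inc E f) (hg : Inc E g) :
    (∑ s ∈ E.powerset, wF δ x E s * f s) * ∑ s ∈ E.powerset, wF δ x E s * g s ≤
      (∑ s ∈ E.powerset, wF δ x E s) * ∑ s ∈ E.powerset, wF δ x E s * (f s * g s) :=
  fkg_of_lat (fun _ hs => wF_nonneg (fun e he => (hx0 e he).le) (fun e he => (hx1 e he).le) hs)
    (wF_lat h2 hx0 (fun _ _ => le_refl _) hx1) hf hg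

theorem Inc_FF (E : Finset ε) (A : G) : Inc E fun ω => ind (FF δ A ω) :=
  ⟨fun _ _ => ind_nonneg _, fun _ _ h _ => ind_mono fun h' => h'.mono h⟩

/-- the conditional law given `FF A` dominates -/
theorem wF_SD_FF (h2 : ∀ g : G, g + g = 0) {x : ε → ℝ} {E : Finset ε} (hx0 : ∀ e ∈ E, 0 < x e)
    (hx1 : ∀ e ∈ E, x e < 1) (A : G) :
    SD E (wF δ x E) fun ω => wF δ x E ω * ind (FF δ A ω) := by
  intro f hf
  have := wF_fkg (δ := δ) h2 hx0 hx1 hf (Inc_FF (δ := δ) E A)
  refine this.trans (le_of_eq ?_)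
  congr 1
  refine Finset.sum_congr rfl fun s _ => ?_
  ring

/-! ## The loop O(1) coupling -/

/-- unnormalised expectation of `f (η ∪ b)`, `η` the loop O(1) model with sources `A`, weights `x`,
`b` Bernoulli with parameters `s` -/
noncomputable def YS (δ : ε → G) (x s : ε → ℝ) (E : Finset ε) (A : G) (f : Finset ε → ℝ) : ℝ :=
  ∑ η ∈ E.powerset, ind (bdm δ η = A) * (∏ e ∈ η, x e) * ∑ b ∈ E.powerset, wB s E b * f (η ∪ b)

/-- partition function of the loop O(1) model with sources `A` -/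
noncomputable def ZA (δ : ε → G) (x : ε → ℝ) (E : Finset ε) (A : G) : ℝ :=
  ∑ η ∈ E.powerset, ind (bdm δ η = A) * ∏ e ∈ η, x e

theorem YS_one (x s : ε → ℝ) (E : Finset ε) (A : G) : YS δ x s E A (fun _ => 1) = ZA δ x E A := by
  unfold YS ZA
  refine Finset.sum_congr rfl fun η _ => ?_
  have : ∑ b ∈ E.powerset, wB s E b * (1 : ℝ) = 1 := by
    rw [← Finset.sum_mul, sum_wB, one_mul]
  rw [this, mul_one]

theorem prod_wB (x : ε → ℝ) {E η c : Finset ε} (h : η ⊆ E) (hc : c ⊆ E \ η) :
    (∏ e ∈ η, x e) * wB x (E \ η) c = wB x E (η ∪ c) := by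
  have hE : E = η ∪ (E \ η) := (Finset.union_sdiff_of_subset h).symm
  have h1 := wB_union x (Finset.disjoint_sdiff (s := η) (t := E)) (le_refl η) hc
  rw [← hE] at h1
  rw [h1]
  congr 1
  unfold wB
  rw [sdiff_self]
  simp

/-- `η^A ∪ Ber(x)` has the law of FK-Ising conditioned on `FF A` -/
theorem YS_coupling (h2 : ∀ g : G, g + g = 0) (x : ε → ℝ) (E : Finset ε) (A : G)
    (f : Finset ε → ℝ) :
    YS δ x x E A f = ∑ ω ∈ E.powerset, wF δ x E ω * ind (FF δ A ω) * f ω := by
  classical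
  have h1 : YS δ x x E A f = ∑ η ∈ E.powerset, ∑ ω ∈ E.powerset,
      if η ⊆ ω then ind (bdm δ η = A) * (wB x E ω * f ω) else 0 := by
    unfold YS
    refine Finset.sum_congr rfl fun η hη => ?_
    rw [Finset.mem_powerset] at hη
    rw [sum_wB_union x hη, ← Finset.sum_filter, mul_assoc, Finset.mul_sum, Finset.mul_sum,
      ← sum_powerset_sdiff E η hη fun ω => ind (bdm δ η = A) * (wB x E ω * f ω)]
    refine Finset.sum_congr rfl fun c hc => ?_
    rw [Finset.mem_powerset] at hc
    rw [← prod_wB x hη hc]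
    ring
  rw [h1, Finset.sum_comm]
  refine Finset.sum_congr rfl fun ω hω => ?_
  rw [Finset.mem_powerset] at hω
  have h3 : wF δ x E ω * ind (FF δ A ω) = wB x E ω * NN δ A ω := by
    unfold wF
    rw [NN_eq h2 A]
    ring
  rw [h3]
  unfold NN
  rw [← Finset.sum_filter]
  have h4 : E.powerset.filter (fun η => η ⊆ ω) = ω.powerset := by
    ext η
    rw [Finset.mem_filter, Finset.mem_powerset, Finset.mem_powerset]
    exact ⟨fun h => h.2, fun h => ⟨h.trans hω, h⟩⟩
  rw [h4, Finset.mul_sum, Finset.sum_mul]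
  refine Finset.sum_congr rfl fun η _ => ?_
  ring

/-- the two point function (and all correlations) in FK form -/
theorem ZA_eq (h2 : ∀ g : G, g + g = 0) (x : ε → ℝ) (E : Finset ε) (A : G) :
    ZA δ x E A = ∑ ω ∈ E.powerset, wF δ x E ω * ind (FF δ A ω) := by
  rw [← YS_one x x, YS_coupling h2]
  refine Finset.sum_congr rfl fun ω _ => ?_
  ring

/-! ## Thinning -/

/-- expectation over an independent thinning of `ω` (every edge is kept with probability `κ`) -/
noncomputable def thin (κ : ε → ℝ) (f : Finset ε → ℝ) (ω : Finset ε) : ℝ :=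
  ∑ c ∈ ω.powerset, wB κ ω c * f c

theorem thin_Inc {κ : ε → ℝ} {E : Finset ε} (h0 : ∀ e ∈ E, 0 ≤ κ e) (h1 : ∀ e ∈ E, κ e ≤ 1)
    {f : Finset ε → ℝ} (hf : Inc E f) : Inc E (thin κ f) := by
  constructor
  · intro s hs
    exact Finset.sum_nonneg fun c hc => mul_nonneg
      (wB_nonneg (fun e he => h0 e (hs he)) (fun e he => h1 e (hs he)) (Finset.mem_powerset.mp hc))
      (hf.1 c ((Finset.mem_powerset.mp hc).trans hs))
  · intro s t hst ht
    unfold thin
    have hE : t = s ∪ (t \ s) := (Finset.union_sdiff_of_subset hst).symm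
    have hd : Disjoint s (t \ s) := Finset.disjoint_sdiff
    have e1 : ∑ c ∈ t.powerset, wB κ t c * f c = ∑ a ∈ s.powerset, ∑ b ∈ (t \ s).powerset,
        wB κ s a * (wB κ (t \ s) b * f (a ∪ b)) := by
      conv_lhs => rw [hE]
      rw [sum_powerset_union s (t \ s) hd]
      refine Finset.sum_congr rfl fun a ha => Finset.sum_congr rfl fun b hb => ?_
      rw [wB_union κ hd (Finset.mem_powerset.mp ha) (Finset.mem_powerset.mp hb)]
      ring
    rw [e1]
    refine Finset.sum_le_sum fun a ha => ?_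
    rw [Finset.mem_powerset] at ha
    rw [← Finset.mul_sum]
    refine mul_le_mul_of_nonneg_left ?_ (wB_nonneg (fun e he => h0 e (ht (hst he)))
      (fun e he => h1 e (ht (hst he))) ha)
    have e2 : f a = ∑ b ∈ (t \ s).powerset, wB κ (t \ s) b * f a := by
      rw [← Finset.sum_mul, sum_wB, one_mul]
    rw [e2]
    refine Finset.sum_le_sum fun b hb => ?_
    rw [Finset.mem_powerset] at hb
    refine mul_le_mul_of_nonneg_left (hf.2 _ _ Finset.subset_union_left ?_)
      (wB_nonneg (fun e he => h0 e (ht (Finset.sdiff_subset he)))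
        (fun e he => h1 e (ht (Finset.sdiff_subset he))) hb)
    exact Finset.union_subset (ha.trans (hst.trans ht)) (hb.trans (Finset.sdiff_subset.trans ht))

/-- thinning of Bernoulli percolation -/
theorem sum_wB_thin (x κ : ε → ℝ) (E : Finset ε) (f : Finset ε → ℝ) :
    ∑ c ∈ E.powerset, wB x E c * thin κ f c =
      ∑ c ∈ E.powerset, wB (fun e => κ e * x e) E c * f c := by
  classical
  induction E using Finset.induction_on generalizing f with
  | empty =>
    simp [thin, wB]
  | insert e E he ih =>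
    have hI : ∀ (y : ε → ℝ) (g : Finset ε → ℝ), ∑ c ∈ (insert e E).powerset, wB y (insert e E) c * g c
        = ∑ c ∈ E.powerset, wB y E c * ((1 - y e) * g c + y e * g (insert e c)) := by
      intro y g
      rw [Finset.sum_powerset_insert he, ← Finset.sum_add_distrib]
      refine Finset.sum_congr rfl fun c hc => ?_
      rw [Finset.mem_powerset] at hc
      have hec : e ∉ c := fun h => he (hc h)
      have s1 : insert e E \ c = insert e (E \ c) := Finset.insert_sdiff_of_notMem E hec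
      have s2 : insert e E \ insert e c = E \ c := by
        ext a
        simp only [Finset.mem_sdiff, Finset.mem_insert]
        constructor
        · rintro ⟨h3 | h3, h4⟩
          · exact absurd (Or.inl h3) h4
          · exact ⟨h3, fun h5 => h4 (Or.inr h5)⟩
        · rintro ⟨h3, h4⟩
          refine ⟨Or.inr h3, fun h5 => h5.elim (fun h6 => he (h6 ▸ h3)) h4⟩
      have he2 : e ∉ E \ c := fun h => he (Finset.sdiff_subset h)
      unfold wB
      rw [s1, s2, Finset.prod_insert he2, Finset.prod_insert hec]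
      ring
    rw [hI, hI]
    have hT : ∀ c, c ⊆ E → thin κ f (insert e c) =
        (1 - κ e) * thin κ f c + κ e * thin κ (fun c => f (insert e c)) c := by
      intro c hc
      have hec : e ∉ c := fun h => he (hc h)
      unfold thin
      rw [Finset.sum_powerset_insert hec, Finset.mul_sum, Finset.mul_sum]
      congr 1
      · refine Finset.sum_congr rfl fun b hb => ?_
        rw [Finset.mem_powerset] at hb
        have heb : e ∉ b := fun h => hec (hb h)
        unfold wB
        rw [Finset.insert_sdiff_of_notMem c heb,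
          Finset.prod_insert (fun h => hec (Finset.sdiff_subset h))]
        ring
      · refine Finset.sum_congr rfl fun b hb => ?_
        rw [Finset.mem_powerset] at hb
        have heb : e ∉ b := fun h => hec (hb h)
        have s2 : insert e c \ insert e b = c \ b := by
          ext a
          simp only [Finset.mem_sdiff, Finset.mem_insert]
          constructor
          · rintro ⟨h3 | h3, h4⟩
            · exact absurd (Or.inl h3) h4
            · exact ⟨h3, fun h5 => h4 (Or.inr h5)⟩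
          · rintro ⟨h3, h4⟩
            refine ⟨Or.inr h3, fun h5 => h5.elim (fun h6 => hec (h6 ▸ h3)) h4⟩
        unfold wB
        rw [s2, Finset.prod_insert heb]
        ring
    have e1 : ∑ c ∈ E.powerset, wB x E c * ((1 - x e) * thin κ f c + x e * thin κ f (insert e c)) =
        (1 - κ e * x e) * ∑ c ∈ E.powerset, wB x E c * thin κ f c +
          (κ e * x e) * ∑ c ∈ E.powerset, wB x E c * thin κ (fun c => f (insert e c)) c := by
      rw [Finset.mul_sum, Finset.mul_sum, ← Finset.sum_add_distrib]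
      refine Finset.sum_congr rfl fun c hc => ?_
      rw [hT c (Finset.mem_powerset.mp hc)]
      ring
    rw [e1, ih, ih, Finset.mul_sum, Finset.mul_sum, ← Finset.sum_add_distrib]
    refine Finset.sum_congr rfl fun c _ => ?_
    ring

/-- `η^A ∪ Ber(κ x)` dominates the thinning of `η^A ∪ Ber(x)` -/
theorem YS_ge_thin {x κ : ε → ℝ} {E : Finset ε} (hx0 : ∀ e ∈ E, 0 ≤ x e) (hx1 : ∀ e ∈ E, x e ≤ 1)
    (h0 : ∀ e ∈ E, 0 ≤ κ e) (h1 : ∀ e ∈ E, κ e ≤ 1) (A : G) {f : Finset ε → ℝ} (hf : Inc E f) :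
    YS δ x x E A (thin κ f) ≤ YS δ x (fun e => κ e * x e) E A f := by
  unfold YS
  refine Finset.sum_le_sum fun η hη => ?_
  rw [Finset.mem_powerset] at hη
  refine mul_le_mul_of_nonneg_left ?_ (mul_nonneg (ind_nonneg _)
    (Finset.prod_nonneg fun e he => hx0 e (hη he)))
  rw [sum_wB_union x hη, sum_wB_union _ hη, ← sum_wB_thin x κ (E \ η) fun c => f (η ∪ c)]
  refine Finset.sum_le_sum fun c hc => ?_
  rw [Finset.mem_powerset] at hc
  have hcE : c ⊆ E := hc.trans Finset.sdiff_subset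
  refine mul_le_mul_of_nonneg_left ?_ (wB_nonneg (fun e he => hx0 e (Finset.sdiff_subset he))
    (fun e he => hx1 e (Finset.sdiff_subset he)) hc)
  unfold thin
  have hd : Disjoint η c := Finset.disjoint_of_subset_right hc Finset.disjoint_sdiff
  rw [sum_powerset_union η c hd, Finset.sum_comm]
  refine Finset.sum_le_sum fun b hb => ?_
  rw [Finset.mem_powerset] at hb
  have hwb : 0 ≤ wB κ c b := wB_nonneg (fun e he => h0 e (hcE he)) (fun e he => h1 e (hcE he)) hb
  have e2 : wB κ c b * f (η ∪ b) = ∑ a ∈ η.powerset, wB κ η a * (wB κ c b * f (η ∪ b)) := by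
    rw [← Finset.sum_mul, sum_wB, one_mul]
  rw [e2]
  refine Finset.sum_le_sum fun a ha => ?_
  rw [Finset.mem_powerset] at ha
  rw [wB_union κ hd ha hb, mul_assoc]
  refine mul_le_mul_of_nonneg_left ?_ (wB_nonneg (fun e he => h0 e (hη he))
    (fun e he => h1 e (hη he)) ha)
  refine mul_le_mul_of_nonneg_left ?_ hwb
  exact hf.2 _ _ (Finset.union_subset_union_left ha)
    (Finset.union_subset hη (hb.trans hcE))

end

end Pool.Agent.FK1
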