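import Pool.Agent.FK1.Fk

/-!
# Block FK1, part G: `FF` and connections in the graph `ℤ^d` (helper34)

`bdw D e` = the boundary of the edge `e` in the graph where all vertices outside `D` are wired to one
ghost (boundary function restricted to `D`); `D = Set.univ` is the plain graph.
-/

set_option autoImplicit false
set_option linter.unusedSectionVars false

namespace Pool.Agent.FK1

open Finset
open Pool.Agent.SRC

variable {d : ℕ}

theorem two_fun (g : Vx d → ZMod 2) : g + g = 0 := by
  funext x
  exact CharTwo.add_self_eq_zero (g x)

/-- the boundary function restricted to `D` -/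
noncomputable def rs (D : Set (Vx d)) (g : Vx d → ZMod 2) : Vx d → ZMod 2 := D.indicator g

/-- boundary of an edge, the vertices outside `D` wired to the ghost -/
noncomputable def bdw (D : Set (Vx d)) (e : Ed d) : Vx d → ZMod 2 := rs D (bde e)

theorem rs_univ (g : Vx d → ZMod 2) : rs Set.univ g = g := Set.indicator_univ g

theorem bdw_univ : (bdw Set.univ : Ed d → Vx d → ZMod 2) = bde := by
  funext e
  exact rs_univ (bde e)

theorem rs_add (D : Set (Vx d)) (g h : Vx d → ZMod 2) : rs D (g + h) = rs D g + rs D h := by
  unfold rs
  exact Set.indicator_add' D g h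

theorem rs_zero (D : Set (Vx d)) : rs D (0 : Vx d → ZMod 2) = 0 := by
  funext x
  by_cases hx : x ∈ D
  · exact Set.indicator_of_mem hx _
  · exact Set.indicator_of_notMem hx _

theorem bdm_bde (η : Finset (Ed d)) : bdm bde η = bd η := rfl

theorem bdm_bdw (D : Set (Vx d)) (η : Finset (Ed d)) : bdm (bdw D) η = rs D (bd η) := by
  classical
  induction η using Finset.induction_on with
  | empty =>
    have h1 : bd (∅ : Finset (Ed d)) = 0 := Finset.sum_empty
    rw [h1, rs_zero]
    exact Finset.sum_empty
  | insert e η he ih =>
    have h1 : bd (insert e η) = bde e + bd η := Finset.sum_insert he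
    have h2 : bdm (bdw D) (insert e η) = bdw D e + bdm (bdw D) η := Finset.sum_insert he
    rw [h1, h2, ih, rs_add]
    rfl

/-- a vertex set which is a union of clusters has an even number of boundary points -/
theorem sum_bd_eq_zero (ω η : Finset (Ed d)) (hη : η ⊆ ω) (T : Finset (Vx d))
    (hT : ∀ e ∈ ω, (e.1 ∈ T ↔ tip e ∈ T)) : ∑ x ∈ T, bd η x = 0 := by
  classical
  have h1 : ∀ x, bd η x = ∑ e ∈ η, bde e x := fun x => Finset.sum_apply x η bde
  rw [Finset.sum_congr rfl fun x _ => h1 x, Finset.sum_comm]
  refine Finset.sum_eq_zero fun e he => ?_
  have h2 := hT e (hη he)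
  have h3 : ∀ x, bde e x = (if x = e.1 then 1 else 0) + (if x = tip e then 1 else 0) := by
    intro x
    unfold bde
    rw [Pi.add_apply, Pi.single_apply, Pi.single_apply]
  rw [Finset.sum_congr rfl fun x _ => h3 x, Finset.sum_add_distrib, Finset.sum_ite_eq',
    Finset.sum_ite_eq']
  by_cases h4 : e.1 ∈ T
  · rw [if_pos h4, if_pos (h2.mp h4)]
    decide
  · rw [if_neg h4, if_neg (fun h5 => h4 (h2.mpr h5))]
    decide

theorem conn_edge {ω : Set (Ed d)} {e : Ed d} (he : e ∈ ω) : conn ω e.1 (tip e) :=
  Relation.ReflTransGen.single ⟨e.2, Or.inl ⟨he, rfl⟩⟩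

/-- the endpoints of the edges of `ω` -/
noncomputable def ends (ω : Finset (Ed d)) : Finset (Vx d) := by
  classical exact ω.image (fun e => e.1) ∪ ω.image tip

theorem mem_ends_left {ω : Finset (Ed d)} {e : Ed d} (he : e ∈ ω) : e.1 ∈ ends ω := by
  classical
  unfold ends
  exact Finset.mem_union_left _ (Finset.mem_image_of_mem (fun e : Ed d => e.1) he)

theorem mem_ends_right {ω : Finset (Ed d)} {e : Ed d} (he : e ∈ ω) : tip e ∈ ends ω := by
  classical
  unfold ends
  exact Finset.mem_union_right _ (Finset.mem_image_of_mem tip he)

theorem FF_conn {ω : Finset (Ed d)} {u v : Vx d} (h : conn (↑ω : Set (Ed d)) u v) :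
    FF bde (pt u v) ω := by
  classical
  unfold conn at h
  induction h with
  | refl =>
    have : pt u u = (0 : Vx d → ZMod 2) := two_fun (Pi.single u 1)
    rw [this]
    exact FF.zero ω
  | @tail b c h1 h2 ih =>
    obtain ⟨i, hi⟩ := h2
    have key : FF bde (pt b c) ω := by
      rcases hi with ⟨hm, rfl⟩ | ⟨hm, rfl⟩
      · refine ⟨{(b, i)}, ?_, ?_⟩
        · rw [Finset.singleton_subset_iff]
          exact hm
        · show ∑ e ∈ {(b, i)}, bde e = _
          rw [Finset.sum_singleton]
          rfl
      · refine ⟨{(c, i)}, ?_, ?_⟩
        · rw [Finset.singleton_subset_iff]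
          exact hm
        · show ∑ e ∈ {(c, i)}, bde e = _
          rw [Finset.sum_singleton]
          show Pi.single c 1 + Pi.single (c + uv i) 1 = pt (c + uv i) c
          rw [add_comm]
          rfl
    have h3 := FF.add two_fun ih key
    have h4 : pt u b + pt b c = pt u c := by
      show (Pi.single u 1 + Pi.single b 1) + (Pi.single b 1 + Pi.single c 1) =
        (Pi.single u 1 + Pi.single c 1 : Vx d → ZMod 2)
      have h5 := two_fun (Pi.single b 1 : Vx d → ZMod 2)
      calc (Pi.single u 1 + Pi.single b 1) + (Pi.single b 1 + Pi.single c 1)
          = Pi.single u 1 + (Pi.single b 1 + Pi.single b 1) + Pi.single c 1 := by abel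
        _ = _ := by rw [h5, add_zero]
    rwa [h4] at h3

theorem FF_rs {D : Set (Vx d)} {A : Vx d → ZMod 2} {ω : Finset (Ed d)} (h : FF bde A ω) :
    FF (bdw D) (rs D A) ω := by
  obtain ⟨η, h1, h2⟩ := h
  refine ⟨η, h1, ?_⟩
  rw [bdm_bdw, ← bdm_bde, h2]

/-- **evenness on clusters**: some subset of `ω` has boundary `A` (mod the wired outside of `D`) iff `A`
lives on `D` and has an even number of points in every cluster of `ω` contained in `D` -/
theorem FF_bdw_iff (D : Set (Vx d)) (A : Vx d → ZMod 2) (S : Finset (Vx d))
    (hS : ∀ x, x ∉ S → A x = 0) (ω : Finset (Ed d)) :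
    FF (bdw D) A ω ↔ (∀ x, x ∉ D → A x = 0) ∧
      ∀ u, (∀ v, conn (↑ω : Set (Ed d)) u v → v ∈ D) →
        ∑ x ∈ fl S (conn (↑ω : Set (Ed d)) u), A x = 0 := by
  classical
  constructor
  · rintro ⟨η, hη, hA⟩
    rw [bdm_bdw] at hA
    have hAD : ∀ x, x ∉ D → A x = 0 := by
      intro x hx
      rw [← hA]
      exact Set.indicator_of_notMem hx _
    refine ⟨hAD, fun u hu => ?_⟩
    let T : Finset (Vx d) := fl (S ∪ ends ω) (conn (↑ω : Set (Ed d)) u)
    have h1 : ∑ x ∈ T, bd η x = 0 := by
      refine sum_bd_eq_zero ω η hη T fun e he => ?_
      rw [mem_fl, mem_fl]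
      constructor
      · rintro ⟨_, h3⟩
        exact ⟨Finset.mem_union_right _ (mem_ends_right he),
          conn_trans h3 (conn_edge (Finset.mem_coe.mpr he))⟩
      · rintro ⟨_, h3⟩
        exact ⟨Finset.mem_union_right _ (mem_ends_left he),
          conn_trans h3 (conn_symm (conn_edge (Finset.mem_coe.mpr he)))⟩
    have h2 : ∑ x ∈ T, A x = 0 := by
      rw [← h1]
      refine Finset.sum_congr rfl fun x hx => ?_
      rw [mem_fl] at hx
      rw [← hA]
      exact Set.indicator_of_mem (hu x hx.2) _
    rw [← h2]
    refine Finset.sum_subset ?_ ?_
    · intro x hx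
      rw [mem_fl] at hx ⊢
      exact ⟨Finset.mem_union_left _ hx.1, hx.2⟩
    · intro x hx hx'
      rw [mem_fl] at hx
      exact hS x fun h3 => hx' ((mem_fl _ _ _).mpr ⟨h3, hx.2⟩)
  · rintro ⟨hAD, hE⟩
    -- induction on the number of points of `A`
    have main : ∀ n : ℕ, ∀ B : Vx d → ZMod 2, (∀ x, x ∉ S → B x = 0) → (∀ x, x ∉ D → B x = 0) →
        (∀ u, (∀ v, conn (↑ω : Set (Ed d)) u v → v ∈ D) →
          ∑ x ∈ fl S (conn (↑ω : Set (Ed d)) u), B x = 0) →
        (S.filter fun x => B x ≠ 0).card ≤ n → FF (bdw D) B ω := by
      intro n
      induction n with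
      | zero =>
        intro B hB1 _ _ hn
        have : B = 0 := by
          funext x
          by_cases hx : x ∈ S
          · by_contra h3
            have : x ∈ S.filter fun x => B x ≠ 0 := Finset.mem_filter.mpr ⟨hx, h3⟩
            have := Finset.card_pos.mpr ⟨x, this⟩
            omega
          · exact hB1 x hx
        rw [this]
        exact FF.zero ω
      | succ n ih =>
        intro B hB1 hB2 hB3 hn
        by_cases hB : ∃ u, B u ≠ 0
        · obtain ⟨u, hu⟩ := hB
          have huS : u ∈ S := by
            by_contra h3
            exact hu (hB1 u h3)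
          have huD : u ∈ D := by
            by_contra h3
            exact hu (hB2 u h3)
          have hu1 : B u = 1 := by
            have : ∀ z : ZMod 2, z ≠ 0 → z = 1 := by decide
            exact this _ hu
          by_cases hout : ∀ v, conn (↑ω : Set (Ed d)) u v → v ∈ D
          · -- another point of `B` in the cluster
            have h3 := hB3 u hout
            have h4 : ∃ v ∈ S, conn (↑ω : Set (Ed d)) u v ∧ v ≠ u ∧ B v ≠ 0 := by
              by_contra h5
              push Not at h5
              have h6 : ∑ x ∈ fl S (conn (↑ω : Set (Ed d)) u), B x = B u := by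
                refine Finset.sum_eq_single u ?_ ?_
                · intro b hb hbu
                  rw [mem_fl] at hb
                  exact h5 b hb.1 hb.2 hbu
                · intro h7
                  exact absurd ((mem_fl _ _ _).mpr ⟨huS, conn_refl _ u⟩) h7
              rw [h6] at h3
              exact hu h3
            obtain ⟨v, hvS, huv, hvu, hv⟩ := h4
            have hv1 : B v = 1 := by
              have : ∀ z : ZMod 2, z ≠ 0 → z = 1 := by decide
              exact this _ hv
            have hvD : v ∈ D := hout v huv
            let B' : Vx d → ZMod 2 := B + pt u v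
            have hpt : ∀ x, pt u v x = (if x = u then 1 else 0) + (if x = v then (1 : ZMod 2) else 0) := by
              intro x
              unfold pt
              rw [Pi.add_apply, Pi.single_apply, Pi.single_apply]
            have hB' : ∀ x, B' x = B x + pt u v x := fun x => rfl
            have hF : FF (bdw D) B' ω := by
              refine ih B' ?_ ?_ ?_ ?_
              · intro x hx
                rw [hB', hB1 x hx, hpt, if_neg (fun h : x = u => hx (h ▸ huS)),
                  if_neg (fun h : x = v => hx (h ▸ hvS))]
                decide
              · intro x hx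
                rw [hB', hB2 x hx, hpt, if_neg (fun h : x = u => hx (h ▸ huD)),
                  if_neg (fun h : x = v => hx (h ▸ hvD))]
                decide
              · intro w hw
                have h5 : ∑ x ∈ fl S (conn (↑ω : Set (Ed d)) w), B' x =
                    ∑ x ∈ fl S (conn (↑ω : Set (Ed d)) w), B x +
                      ∑ x ∈ fl S (conn (↑ω : Set (Ed d)) w), pt u v x := by
                  rw [← Finset.sum_add_distrib]
                  exact Finset.sum_congr rfl fun x _ => hB' x
                rw [h5, hB3 w hw, zero_add, Finset.sum_congr rfl fun x _ => hpt x,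
                  Finset.sum_add_distrib, Finset.sum_ite_eq', Finset.sum_ite_eq']
                by_cases hwu : conn (↑ω : Set (Ed d)) w u
                · rw [if_pos ((mem_fl _ _ _).mpr ⟨huS, hwu⟩),
                    if_pos ((mem_fl _ _ _).mpr ⟨hvS, conn_trans hwu huv⟩)]
                  decide
                · rw [if_neg (fun h => hwu ((mem_fl _ _ _).mp h).2),
                    if_neg (fun h => hwu (conn_trans ((mem_fl _ _ _).mp h).2 (conn_symm huv)))]
                  decide
              · have h5 : (S.filter fun x => B' x ≠ 0) ⊆ (S.filter fun x => B x ≠ 0).erase u := by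
                  intro x hx
                  rw [Finset.mem_filter] at hx
                  rw [Finset.mem_erase, Finset.mem_filter]
                  have hxu : x ≠ u := by
                    rintro rfl
                    refine hx.2 ?_
                    rw [hB', hpt, hu1, if_pos rfl, if_neg (fun h => hvu h.symm)]
                    decide
                  have hxv : x ≠ v := by
                    rintro rfl
                    refine hx.2 ?_
                    rw [hB', hpt, hv1, if_neg hvu, if_pos rfl]
                    decide
                  refine ⟨hxu, hx.1, ?_⟩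
                  have h7 := hx.2
                  rw [hB', hpt, if_neg hxu, if_neg hxv, add_zero, add_zero] at h7
                  exact h7
                have h6 : u ∈ S.filter fun x => B x ≠ 0 := Finset.mem_filter.mpr ⟨huS, hu⟩
                have h7 := Finset.card_le_card h5
                rw [Finset.card_erase_of_mem h6] at h7
                omega
            have h8 : FF (bdw D) (rs D (pt u v)) ω := FF_rs (FF_conn huv)
            have h9 : rs D (pt u v) = pt u v := by
              refine Set.indicator_eq_self.mpr ?_
              intro x hx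
              rw [Function.mem_support, hpt] at hx
              by_cases h10 : x = u
              · exact h10 ▸ huD
              · by_cases h11 : x = v
                · exact h11 ▸ hvD
                · rw [if_neg h10, if_neg h11] at hx
                  exact absurd (by decide) hx
            rw [h9] at h8
            have h10 := FF.add two_fun hF h8
            have h11 : B' + pt u v = B := by
              show B + pt u v + pt u v = B
              rw [add_assoc, two_fun, add_zero]
            rwa [h11] at h10
          · -- the cluster of `u` leaves `D`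
            push Not at hout
            obtain ⟨a, hua, haD⟩ := hout
            let B' : Vx d → ZMod 2 := B + Pi.single u 1
            have hs : ∀ x, (Pi.single u 1 : Vx d → ZMod 2) x = if x = u then 1 else 0 := fun x =>
              Pi.single_apply u 1 x
            have hB' : ∀ x, B' x = B x + (if x = u then 1 else 0) := fun x => by
              show B x + (Pi.single u 1 : Vx d → ZMod 2) x = _
              rw [hs]
            have hF : FF (bdw D) B' ω := by
              refine ih B' ?_ ?_ ?_ ?_
              · intro x hx
                rw [hB', hB1 x hx, if_neg (fun h : x = u => hx (h ▸ huS)), add_zero]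
              · intro x hx
                rw [hB', hB2 x hx, if_neg (fun h : x = u => hx (h ▸ huD)), add_zero]
              · intro w hw
                rw [Finset.sum_congr rfl fun x _ => hB' x, Finset.sum_add_distrib, hB3 w hw,
                  Finset.sum_ite_eq', zero_add]
                refine if_neg fun h => ?_
                exact haD (hw a (conn_trans ((mem_fl _ _ _).mp h).2 hua))
              · have h5 : (S.filter fun x => B' x ≠ 0) ⊆ (S.filter fun x => B x ≠ 0).erase u := by
                  intro x hx
                  rw [Finset.mem_filter] at hx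
                  rw [Finset.mem_erase, Finset.mem_filter]
                  have hxu : x ≠ u := by
                    rintro rfl
                    refine hx.2 ?_
                    rw [hB', hu1, if_pos rfl]
                    decide
                  refine ⟨hxu, hx.1, ?_⟩
                  have h7 := hx.2
                  rw [hB', if_neg hxu, add_zero] at h7
                  exact h7
                have h6 : u ∈ S.filter fun x => B x ≠ 0 := Finset.mem_filter.mpr ⟨huS, hu⟩
                have h7 := Finset.card_le_card h5
                rw [Finset.card_erase_of_mem h6] at h7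
                omega
            have h8 : FF (bdw D) (rs D (pt u a)) ω := FF_rs (FF_conn hua)
            have h9 : rs D (pt u a) = Pi.single u 1 := by
              funext x
              have hpt : pt u a x = (if x = u then 1 else 0) + (if x = a then (1 : ZMod 2) else 0) := by
                unfold pt
                rw [Pi.add_apply, Pi.single_apply, Pi.single_apply]
              by_cases hx : x ∈ D
              · have h10 : rs D (pt u a) x = pt u a x := Set.indicator_of_mem hx _
                have h11 : x ≠ a := fun h => haD (h ▸ hx)
                rw [h10, hpt, hs, if_neg h11, add_zero]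
              · have h10 : rs D (pt u a) x = 0 := Set.indicator_of_notMem hx _
                rw [h10, hs, if_neg (fun h : x = u => hx (h ▸ huD))]
            rw [h9] at h8
            have h10 := FF.add two_fun hF h8
            have h11 : B' + Pi.single u 1 = B := by
              show B + Pi.single u 1 + Pi.single u 1 = B
              rw [add_assoc, two_fun, add_zero]
            rwa [h11] at h10
        · push Not at hB
          have : B = 0 := funext hB
          rw [this]
          exact FF.zero ω
    exact main _ A hS hAD hE (le_refl _)

/-- the plain graph -/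
theorem FF_bde_iff (A : Vx d → ZMod 2) (S : Finset (Vx d)) (hS : ∀ x, x ∉ S → A x = 0)
    (ω : Finset (Ed d)) :
    FF bde A ω ↔ ∀ u, ∑ x ∈ fl S (conn (↑ω : Set (Ed d)) u), A x = 0 := by
  have h := FF_bdw_iff Set.univ A S hS ω
  rw [bdw_univ] at h
  rw [h]
  constructor
  · rintro ⟨_, h2⟩ u
    exact h2 u fun v _ => Set.mem_univ v
  · intro h2
    exact ⟨fun x hx => absurd (Set.mem_univ x) hx, fun u _ => h2 u⟩

/-- two points: connection -/
theorem FF_pt_iff (ω : Finset (Ed d)) (u v : Vx d) :
    FF bde (pt u v) ω ↔ conn (↑ω : Set (Ed d)) u v := by
  classical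
  constructor
  · rintro ⟨η, hη, hA⟩
    by_contra hc
    let T : Finset (Vx d) := fl (insert u (insert v (ends ω))) (conn (↑ω : Set (Ed d)) u)
    have h1 : ∑ x ∈ T, bd η x = 0 := by
      refine sum_bd_eq_zero ω η hη T fun e he => ?_
      rw [mem_fl, mem_fl]
      constructor
      · rintro ⟨_, h3⟩
        exact ⟨Finset.mem_insert_of_mem (Finset.mem_insert_of_mem (mem_ends_right he)),
          conn_trans h3 (conn_edge (Finset.mem_coe.mpr he))⟩
      · rintro ⟨_, h3⟩
        exact ⟨Finset.mem_insert_of_mem (Finset.mem_insert_of_mem (mem_ends_left he)),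
          conn_trans h3 (conn_symm (conn_edge (Finset.mem_coe.mpr he)))⟩
    have h2 : bd η = pt u v := hA
    have hpt : ∀ x, pt u v x = (if x = u then 1 else 0) + (if x = v then (1 : ZMod 2) else 0) := by
      intro x
      unfold pt
      rw [Pi.add_apply, Pi.single_apply, Pi.single_apply]
    rw [h2, Finset.sum_congr rfl fun x _ => hpt x, Finset.sum_add_distrib, Finset.sum_ite_eq',
      Finset.sum_ite_eq', if_pos ((mem_fl _ _ _).mpr ⟨Finset.mem_insert_self _ _, conn_refl _ u⟩),
      if_neg (fun h => hc ((mem_fl _ _ _).mp h).2)] at h1
    exact absurd h1 (by decide)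
  · exact FF_conn

/-- one point and the ghost -/
theorem FF_single_iff (D : Set (Vx d)) (ω : Finset (Ed d)) (u : Vx d) (hu : u ∈ D) :
    FF (bdw D) (Pi.single u 1) ω ↔ ∃ a, a ∉ D ∧ conn (↑ω : Set (Ed d)) u a := by
  classical
  have hs : ∀ x, (Pi.single u 1 : Vx d → ZMod 2) x = if x = u then 1 else 0 := fun x =>
    Pi.single_apply u 1 x
  rw [FF_bdw_iff D (Pi.single u 1) {u} (fun x hx => by
    rw [hs, if_neg (fun h : x = u => hx (Finset.mem_singleton.mpr h))]) ω]
  constructor
  · rintro ⟨_, h⟩
    by_contra h2
    push Not at h2
    have h3 := h u fun v hv => by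
      by_contra h4
      exact h2 v h4 hv
    rw [Finset.sum_congr rfl fun x _ => hs x, Finset.sum_ite_eq',
      if_pos ((mem_fl _ _ _).mpr ⟨Finset.mem_singleton_self u, conn_refl _ u⟩)] at h3
    exact absurd h3 (by decide)
  · rintro ⟨a, ha, hua⟩
    refine ⟨fun x hx => by rw [hs, if_neg (fun h : x = u => hx (h ▸ hu))], fun w hw => ?_⟩
    rw [Finset.sum_congr rfl fun x _ => hs x, Finset.sum_ite_eq']
    refine if_neg fun h => ?_
    exact ha (hw a (conn_trans ((mem_fl _ _ _).mp h).2 hua))

/-- two points with the ghost -/
theorem FF_w_pt_iff (D : Set (Vx d)) (ω : Finset (Ed d)) (u v : Vx d) (hu : u ∈ D) (hv : v ∈ D) :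
    FF (bdw D) (pt u v) ω ↔ conn (↑ω : Set (Ed d)) u v ∨
      ((∃ a, a ∉ D ∧ conn (↑ω : Set (Ed d)) u a) ∧ ∃ b, b ∉ D ∧ conn (↑ω : Set (Ed d)) v b) := by
  classical
  by_cases huv : conn (↑ω : Set (Ed d)) u v
  · refine iff_of_true ?_ (Or.inl huv)
    have h8 : FF (bdw D) (rs D (pt u v)) ω := FF_rs (FF_conn huv)
    have h9 : rs D (pt u v) = pt u v := by
      refine Set.indicator_eq_self.mpr ?_
      intro x hx
      have hpt : pt u v x = (if x = u then 1 else 0) + (if x = v then (1 : ZMod 2) else 0) := by
        unfold pt
        rw [Pi.add_apply, Pi.single_apply, Pi.single_apply]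
      rw [Function.mem_support, hpt] at hx
      by_cases h10 : x = u
      · exact h10 ▸ hu
      · by_cases h11 : x = v
        · exact h11 ▸ hv
        · rw [if_neg h10, if_neg h11] at hx
          exact absurd (by decide) hx
    rwa [h9] at h8
  · constructor
    · intro h
      right
      have hne : u ≠ v := fun h => huv (h ▸ conn_refl _ u)
      have hpt : ∀ x, pt u v x = (if x = u then 1 else 0) + (if x = v then (1 : ZMod 2) else 0) := by
        intro x
        unfold pt
        rw [Pi.add_apply, Pi.single_apply, Pi.single_apply]
      rw [FF_bdw_iff D (pt u v) {u, v} (fun x hx => by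
        rw [Finset.mem_insert, Finset.mem_singleton, not_or] at hx
        rw [hpt, if_neg hx.1, if_neg hx.2, add_zero]) ω] at h
      constructor
      · by_contra h2
        push Not at h2
        have h3 := h.2 u fun v hv => by
          by_contra h4
          exact h2 v h4 hv
        rw [Finset.sum_congr rfl fun x _ => hpt x, Finset.sum_add_distrib, Finset.sum_ite_eq',
          Finset.sum_ite_eq',
          if_pos ((mem_fl _ _ _).mpr ⟨Finset.mem_insert_self _ _, conn_refl _ u⟩),
          if_neg (fun h => huv ((mem_fl _ _ _).mp h).2)] at h3
        exact absurd h3 (by decide)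
      · by_contra h2
        push Not at h2
        have h3 := h.2 v fun w hw => by
          by_contra h4
          exact h2 w h4 hw
        rw [Finset.sum_congr rfl fun x _ => hpt x, Finset.sum_add_distrib, Finset.sum_ite_eq',
          Finset.sum_ite_eq',
          if_neg (fun h => huv (conn_symm ((mem_fl _ _ _).mp h).2)),
          if_pos ((mem_fl _ _ _).mpr ⟨Finset.mem_insert_of_mem (Finset.mem_singleton_self v),
            conn_refl _ v⟩)] at h3
        exact absurd h3 (by decide)
    · rintro (h | ⟨h1, h2⟩)
      · exact absurd h huv
      · exact FF.add two_fun ((FF_single_iff D ω u hu).mpr h1) ((FF_single_iff D ω v hv).mpr h2)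

end Pool.Agent.FK1
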