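import Pool.Agent.FK1.Mk
import Pool.Agent.FK1.Gr

/-!
# Block FK1, part LU: local uniqueness by exploration through nested shells (helper34)

`sep V u v ω` : in the edges of `ω` which touch `V`, both `u` and `v` are joined to the outside of `V`,
but they are not joined to each other.
-/

set_option autoImplicit false
set_option linter.unusedSectionVars false

namespace Pool.Agent.FK1

open Finset
open Pool.Agent.SRC

variable {d : ℕ}

/-- the edges of `ω` touching `V` -/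
noncomputable def touch (V : Set (Vx d)) (ω : Finset (Ed d)) : Finset (Ed d) :=
  fl ω fun e => e.1 ∈ V ∨ tip e ∈ V

/-- two different clusters leave `V` -/
def sep (V : Set (Vx d)) (u v : Vx d) (ω : Finset (Ed d)) : Prop :=
  (∃ a, a ∉ V ∧ conn (↑(touch V ω) : Set (Ed d)) u a) ∧
    (∃ b, b ∉ V ∧ conn (↑(touch V ω) : Set (Ed d)) v b) ∧
      ¬ conn (↑(touch V ω) : Set (Ed d)) u v

theorem mem_touch {V : Set (Vx d)} {ω : Finset (Ed d)} {e : Ed d} :
    e ∈ touch V ω ↔ e ∈ ω ∧ (e.1 ∈ V ∨ tip e ∈ V) := mem_fl _ _ _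

theorem touch_subset (V : Set (Vx d)) (ω : Finset (Ed d)) : touch V ω ⊆ ω := fl_subset _ _

theorem touch_mono {V V' : Set (Vx d)} {ω ω' : Finset (Ed d)} (hV : V ⊆ V') (hω : ω ⊆ ω') :
    touch V ω ⊆ touch V' ω' := by
  intro e he
  rw [mem_touch] at he ⊢
  exact ⟨hω he.1, he.2.imp (fun h => hV h) fun h => hV h⟩

/-- the first exit of a path from `V` -/
theorem exit {V : Set (Vx d)} {ω : Finset (Ed d)} {u a : Vx d} (hu : u ∈ V)
    (h : conn (↑ω : Set (Ed d)) u a) :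
    (a ∈ V ∧ conn (↑(touch V ω) : Set (Ed d)) u a) ∨
      ∃ b c i, b ∈ V ∧ c ∉ V ∧ conn (↑(touch V ω) : Set (Ed d)) u c ∧
        (((b, i) ∈ ω ∧ c = b + uv i) ∨ ((c, i) ∈ ω ∧ b = c + uv i)) := by
  unfold conn at h
  induction h with
  | refl => exact Or.inl ⟨hu, conn_refl _ u⟩
  | @tail b c _ h2 ih =>
    rcases ih with ⟨hb, hub⟩ | h3
    · obtain ⟨i, hi⟩ := h2
      have hbc : conn (↑(touch V ω) : Set (Ed d)) b c := by
        refine Relation.ReflTransGen.single ⟨i, ?_⟩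
        rcases hi with ⟨hm, he⟩ | ⟨hm, he⟩
        · refine Or.inl ⟨?_, he⟩
          rw [Finset.mem_coe, mem_touch]
          exact ⟨Finset.mem_coe.mp hm, Or.inl hb⟩
        · refine Or.inr ⟨?_, he⟩
          rw [Finset.mem_coe, mem_touch]
          refine ⟨Finset.mem_coe.mp hm, Or.inr ?_⟩
          show c + uv i ∈ V
          rw [← he]
          exact hb
      by_cases hcV : c ∈ V
      · exact Or.inl ⟨hcV, conn_trans hub hbc⟩
      · refine Or.inr ⟨b, c, i, hb, hcV, conn_trans hub hbc, ?_⟩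
        rcases hi with ⟨hm, he⟩ | ⟨hm, he⟩
        · exact Or.inl ⟨Finset.mem_coe.mp hm, he⟩
        · exact Or.inr ⟨Finset.mem_coe.mp hm, he⟩
    · exact Or.inr h3

/-- two points joined to the outside of `V` and not joined to each other are separated at `V` -/
theorem sep_of {V : Set (Vx d)} {u v : Vx d} {ω : Finset (Ed d)} (hu : u ∈ V) (hv : v ∈ V)
    (h1 : ∃ a, a ∉ V ∧ conn (↑ω : Set (Ed d)) u a) (h2 : ∃ b, b ∉ V ∧ conn (↑ω : Set (Ed d)) v b)
    (h3 : ¬ conn (↑ω : Set (Ed d)) u v) : sep V u v ω := by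
  obtain ⟨a, ha, hua⟩ := h1
  obtain ⟨b, hb, hvb⟩ := h2
  refine ⟨?_, ?_, fun h => h3 (conn_mono (Finset.coe_subset.mpr (touch_subset V ω)) h)⟩
  · rcases exit hu hua with ⟨h, _⟩ | ⟨_, c, _, _, hc, huc, _⟩
    · exact absurd h ha
    · exact ⟨c, hc, huc⟩
  · rcases exit hv hvb with ⟨h, _⟩ | ⟨_, c, _, _, hc, hvc, _⟩
    · exact absurd h hb
    · exact ⟨c, hc, hvc⟩

theorem sep_mono {V V' : Set (Vx d)} (hV : V ⊆ V') {u v : Vx d} {ω : Finset (Ed d)} (hu : u ∈ V)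
    (hv : v ∈ V) (h : sep V' u v ω) : sep V u v ω := by
  obtain ⟨⟨a, ha, hua⟩, ⟨b, hb, hvb⟩, hn⟩ := h
  have hs : (↑(touch V' ω) : Set (Ed d)) ⊆ (↑ω : Set (Ed d)) :=
    Finset.coe_subset.mpr (touch_subset V' ω)
  refine ⟨?_, ?_, fun h => hn (conn_mono (Finset.coe_subset.mpr (touch_mono hV (le_refl ω))) h)⟩
  · rcases exit hu (conn_mono hs hua) with ⟨h, _⟩ | ⟨_, c, _, _, hc, huc, _⟩
    · exact absurd (hV h) ha
    · exact ⟨c, hc, huc⟩
  · rcases exit hv (conn_mono hs hvb) with ⟨h, _⟩ | ⟨_, c, _, _, hc, hvc, _⟩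
    · exact absurd (hV h) hb
    · exact ⟨c, hc, hvc⟩

/-- edges not touching `V` do not matter -/
theorem touch_union {V : Set (Vx d)} {ω t : Finset (Ed d)}
    (ht : ∀ e ∈ t, e.1 ∉ V ∧ tip e ∉ V) : touch V (ω ∪ t) = touch V ω := by
  ext e
  rw [mem_touch, mem_touch, Finset.mem_union]
  constructor
  · rintro ⟨h1 | h1, h2⟩
    · exact ⟨h1, h2⟩
    · exact (h2.elim (ht e h1).1 (ht e h1).2).elim
  · rintro ⟨h1, h2⟩
    exact ⟨Or.inl h1, h2⟩

/-- the geometry: nested sets `V j` and shells `Sh j`, `j < k` -/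
structure Shells (E : Finset (Ed d)) (V : ℕ → Set (Vx d)) (Sh : ℕ → Finset (Vx d)) (k : ℕ) :
    Prop where
  mono : ∀ j, j < k → V j ⊆ V (j + 1)
  sub : ∀ j, j < k → ∀ a ∈ Sh j, a ∈ V (j + 1)
  out : ∀ j, j < k → ∀ a ∈ Sh j, a ∉ V j
  ex1 : ∀ j, j < k → ∀ e ∈ E, e.1 ∈ V j → tip e ∉ V j → tip e ∈ Sh j
  ex2 : ∀ j, j < k → ∀ e ∈ E, tip e ∈ V j → e.1 ∉ V j → e.1 ∈ Sh j
  edg : ∀ j, j < k → Pool.Agent.SRC.edg (Sh j) ⊆ E

theorem Shells.le {E : Finset (Ed d)} {V : ℕ → Set (Vx d)} {Sh : ℕ → Finset (Vx d)} {k : ℕ}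
    (h : Shells E V Sh k) : ∀ j, j ≤ k → V 0 ⊆ V j := by
  intro j
  induction j with
  | zero => exact fun _ => le_refl _
  | succ j ih => exact fun hj => (ih (by omega)).trans (h.mono j hj)

/-- an exit point of `V j` can be chosen in the shell -/
theorem Shells.exit_mem {E : Finset (Ed d)} {V : ℕ → Set (Vx d)} {Sh : ℕ → Finset (Vx d)} {k : ℕ}
    (h : Shells E V Sh k) {j : ℕ} (hj : j < k) {ω : Finset (Ed d)} (hω : ω ⊆ E) {u a : Vx d}
    (hu : u ∈ V j) (ha : a ∉ V j) (hua : conn (↑(touch (V j) ω) : Set (Ed d)) u a) :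
    ∃ c ∈ Sh j, conn (↑(touch (V j) ω) : Set (Ed d)) u c := by
  have h1 : conn (↑ω : Set (Ed d)) u a :=
    conn_mono (Finset.coe_subset.mpr (touch_subset (V j) ω)) hua
  rcases exit hu h1 with ⟨h2, _⟩ | ⟨b, c, i, hb, hc, huc, he⟩
  · exact absurd h2 ha
  · refine ⟨c, ?_, huc⟩
    rcases he with ⟨hm, he⟩ | ⟨hm, he⟩
    · have h3 : tip (b, i) = c := he.symm
      rw [← h3]
      refine h.ex1 j hj (b, i) (hω hm) hb ?_
      rw [h3]
      exact hc
    · have h3 : tip (c, i) = b := he.symm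
      refine h.ex2 j hj (c, i) (hω hm) ?_ hc
      rw [h3]
      exact hb

/-- **LOCAL UNIQUENESS**, abstract form.  Every two points of every shell are joined inside the shell
with probability at least `c` for the FK law with parameters `y` (free boundary conditions). Then for the
loop O(1) model with Bernoulli coins (`Par x s y`), for EVERY source set `A` and every nonnegative weight
`g` which does not depend on the shells, two different clusters survive `k` shells with probability at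
most `(1 - c)^k`. -/
theorem LU {G : Type*} [AddCommGroup G] {δ : Ed d → G} (h2 : ∀ g : G, g + g = 0)
    {x s y : Ed d → ℝ} {E : Finset (Ed d)} (hn : Prm x s E) (A : G) {V : ℕ → Set (Vx d)}
    {Sh : ℕ → Finset (Vx d)} {k : ℕ} (hS : Shells E V Sh k)
    (hp : ∀ j, j < k → Par x s y (Pool.Agent.SRC.edg (Sh j)))
    {g : Finset (Ed d) → Finset (Ed d) → ℝ} (hg0 : ∀ η b, 0 ≤ g η b)
    (hg : ∀ j, j < k → ∀ η b, g η b = g (η \ Pool.Agent.SRC.edg (Sh j)) (b \ Pool.Agent.SRC.edg (Sh j)))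
    (c : ℝ) (hc1 : c ≤ 1)
    (hc : ∀ j, j < k → ∀ a ∈ Sh j, ∀ b ∈ Sh j, ∃ B : G,
      c * ZA δ y (Pool.Agent.SRC.edg (Sh j)) 0 ≤ ZA δ y (Pool.Agent.SRC.edg (Sh j)) B ∧
        ∀ t, t ⊆ Pool.Agent.SRC.edg (Sh j) → FF δ B t → conn (↑t : Set (Ed d)) a b)
    (u v : Vx d) (hu : u ∈ V 0) (hv : v ∈ V 0) :
    YG δ x s E A (fun η b => g η b * ind (sep (V k) u v (η ∪ b))) ≤
      (1 - c) ^ k * YG δ x s E A (fun η b => g η b * ind (sep (V 0) u v (η ∪ b))) := by
  have hin : ∀ j, j < k → ∀ e ∈ Pool.Agent.SRC.edg (Sh j), e.1 ∉ V j ∧ tip e ∉ V j := by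
    intro j hj e he
    rw [mem_edg] at he
    exact ⟨hS.out j hj _ he.1, hS.out j hj _ he.2⟩
  refine steps h2 hn A k (fun j => Pool.Agent.SRC.edg (Sh j)) hS.edg hp hg0 hg
    (fun j => sep (V j) u v) c hc1 ?_ ?_ ?_
  · intro j hj ω _ t ht h
    have huj : u ∈ V j := hS.le j hj.le hu
    have hvj : v ∈ V j := hS.le j hj.le hv
    have h1 := sep_mono (hS.mono j hj) huj hvj h
    unfold sep at h1 ⊢
    rwa [touch_union fun e he => hin j hj e (ht he)] at h1
  · intro j hj ω _ t ht h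
    unfold sep at h ⊢
    rwa [touch_union fun e he => hin j hj e (ht he)]
  · intro j hj ω hω h
    have huj : u ∈ V j := hS.le j hj.le hu
    have hvj : v ∈ V j := hS.le j hj.le hv
    obtain ⟨⟨a, ha, hua⟩, ⟨b, hb, hvb⟩, _⟩ := h
    have hωE : ω ⊆ E := hω.trans Finset.sdiff_subset
    obtain ⟨a', ha', hua'⟩ := hS.exit_mem hj hωE huj ha hua
    obtain ⟨b', hb', hvb'⟩ := hS.exit_mem hj hωE hvj hb hvb
    obtain ⟨B, hB, hBc⟩ := hc j hj a' ha' b' hb'
    refine ⟨B, hB, fun t ht hF hsep => ?_⟩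
    have hab := hBc t ht hF
    refine hsep.2.2 ?_
    have hm : (↑(touch (V j) ω) : Set (Ed d)) ⊆ (↑(touch (V (j + 1)) (ω ∪ t)) : Set (Ed d)) :=
      Finset.coe_subset.mpr (touch_mono (hS.mono j hj) Finset.subset_union_left)
    have ht' : (↑t : Set (Ed d)) ⊆ (↑(touch (V (j + 1)) (ω ∪ t)) : Set (Ed d)) := by
      refine Finset.coe_subset.mpr fun e he => ?_
      rw [mem_touch]
      have h3 := ht he
      rw [mem_edg] at h3
      exact ⟨Finset.mem_union_right _ he, Or.inl (hS.sub j hj _ h3.1)⟩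
    exact conn_trans (conn_trans (conn_mono hm hua') (conn_mono ht' hab))
      (conn_symm (conn_mono hm hvb'))

/-! ## The graph `ℤ^d`, possibly with the outside of `D` wired -/

/-- inside `D` the wired boundary map is the plain one -/
theorem rs_eq_self {D : Set (Vx d)} {A : Vx d → ZMod 2} (h : ∀ x, x ∉ D → A x = 0) :
    rs D A = A := by
  refine Set.indicator_eq_self.mpr fun x hx => ?_
  by_contra h1
  exact hx (h x h1)

theorem bd_supp {S : Finset (Vx d)} {η : Finset (Ed d)} (hη : η ⊆ edg S) {x : Vx d}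
    (hx : x ∉ S) : bd η x = 0 := by
  have h1 : bd η x = ∑ e ∈ η, bde e x := Finset.sum_apply x η bde
  rw [h1]
  refine Finset.sum_eq_zero fun e he => ?_
  have h2 := (mem_edg S e).mp (hη he)
  have h3 : bde e x = (if x = e.1 then 1 else 0) + (if x = tip e then 1 else 0) := by
    unfold bde
    rw [Pi.add_apply, Pi.single_apply, Pi.single_apply]
  rw [h3, if_neg (fun h : x = e.1 => hx (h ▸ h2.1)), if_neg (fun h : x = tip e => hx (h ▸ h2.2)),
    add_zero]

theorem ZA_bdw {D : Set (Vx d)} {S : Finset (Vx d)} (hSD : ∀ x ∈ S, x ∈ D) (x : Ed d → ℝ)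
    (A : Vx d → ZMod 2) : ZA (bdw D) x (edg S) A = ZA bde x (edg S) A := by
  unfold ZA
  refine Finset.sum_congr rfl fun η hη => ?_
  rw [Finset.mem_powerset] at hη
  congr 1
  refine ind_congr ?_
  rw [bdm_bdw, bdm_bde, rs_eq_self fun x hx => bd_supp hη fun h => hx (hSD x h)]

/-- the hypothesis `hc` of `LU` from the two point function of the shell -/
theorem hc_of_shell {D : Set (Vx d)} {S : Finset (Vx d)} (hSD : ∀ x ∈ S, x ∈ D) {y : Ed d → ℝ}
    {c : ℝ} (hc : ∀ a ∈ S, ∀ b ∈ S, c * ZA bde y (edg S) 0 ≤ ZA bde y (edg S) (pt a b)) :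
    ∀ a ∈ S, ∀ b ∈ S, ∃ B : Vx d → ZMod 2, c * ZA (bdw D) y (edg S) 0 ≤ ZA (bdw D) y (edg S) B ∧
      ∀ t, t ⊆ edg S → FF (bdw D) B t → conn (↑t : Set (Ed d)) a b := by
  classical
  intro a ha b hb
  refine ⟨pt a b, ?_, ?_⟩
  · rw [ZA_bdw hSD y (pt a b), ZA_bdw hSD y 0]
    exact hc a ha b hb
  · intro t ht hF
    rcases (FF_w_pt_iff D t a b (hSD a ha) (hSD b hb)).mp hF with h | ⟨⟨z, hz, haz⟩, _⟩
    · exact h
    · exfalso
      have hstay : ∀ w, conn (↑t : Set (Ed d)) a w → w ∈ S := by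
        intro w hw
        unfold conn at hw
        induction hw with
        | refl => exact ha
        | @tail p q _ h2 ih =>
          obtain ⟨i, ⟨hm, rfl⟩ | ⟨hm, rfl⟩⟩ := h2
          · exact ((mem_edg S _).mp (ht hm)).2
          · exact ((mem_edg S _).mp (ht hm)).1
      exact hz (hSD z (hstay z haz))

/-- **LOCAL UNIQUENESS for the box graph**, the outside of `D` wired (`D = Set.univ`: free) -/
theorem LU_graph {D : Set (Vx d)} {x s y : Ed d → ℝ} {E : Finset (Ed d)} (hn : Prm x s E)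
    (A : Vx d → ZMod 2) {V : ℕ → Set (Vx d)} {Sh : ℕ → Finset (Vx d)} {k : ℕ} (hS : Shells E V Sh k)
    (hD : ∀ j, j < k → ∀ a ∈ Sh j, a ∈ D) (hp : ∀ j, j < k → Par x s y (edg (Sh j)))
    {g : Finset (Ed d) → Finset (Ed d) → ℝ} (hg0 : ∀ η b, 0 ≤ g η b)
    (hg : ∀ j, j < k → ∀ η b, g η b = g (η \ edg (Sh j)) (b \ edg (Sh j)))
    (c : ℝ) (hc1 : c ≤ 1)
    (hc : ∀ j, j < k → ∀ a ∈ Sh j, ∀ b ∈ Sh j,
      c * ZA bde y (edg (Sh j)) 0 ≤ ZA bde y (edg (Sh j)) (pt a b))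
    (u v : Vx d) (hu : u ∈ V 0) (hv : v ∈ V 0) :
    YG (bdw D) x s E A (fun η b => g η b * ind (sep (V k) u v (η ∪ b))) ≤
      (1 - c) ^ k * YG (bdw D) x s E A (fun η b => g η b * ind (sep (V 0) u v (η ∪ b))) :=
  LU two_fun hn A hS hp hg0 hg c hc1 (fun j hj => hc_of_shell (hD j hj) (hc j hj)) u v hu hv

end Pool.Agent.FK1
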