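import Pool.Agent.FK1.Br

/-!
# Block FK1, part LuB: local uniqueness for FK-Ising conditioned on `FF A`, boxes (helper34)

`BX a b m = Icc (a - m) (b + m)`, `ShB a b K j = BX a b ((j+1)K) \ BX a b (jK)`.
-/

set_option autoImplicit false
set_option linter.unusedSectionVars false

namespace Pool.Agent.FK1

open Finset
open Pool.Agent.SRC
open Pool.Agent.TC (cf)

variable {d : ℕ}

/-- the box `[a, b]` enlarged by `m` -/
noncomputable def BX (a b : Vx d) (m : ℕ) : Finset (Vx d) :=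
  Finset.Icc (fun i => a i - (m : ℤ)) (fun i => b i + (m : ℤ))

theorem mem_BX {a b x : Vx d} {m : ℕ} :
    x ∈ BX a b m ↔ ∀ i, a i - (m : ℤ) ≤ x i ∧ x i ≤ b i + (m : ℤ) := by
  unfold BX
  rw [Finset.mem_Icc]
  constructor
  · rintro ⟨h1, h2⟩ i
    exact ⟨h1 i, h2 i⟩
  · intro h
    exact ⟨fun i => (h i).1, fun i => (h i).2⟩

theorem BX_mono (a b : Vx d) {m n : ℕ} (h : m ≤ n) : BX a b m ⊆ BX a b n := by
  intro x hx
  rw [mem_BX] at hx ⊢
  intro i
  have h1 := hx i
  have h3 : (m : ℤ) ≤ n := by exact_mod_cast h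
  exact ⟨by linarith [h1.1], by linarith [h1.2]⟩

/-- the `j`-th shell of thickness `K` round the box `[a, b]` -/
noncomputable def ShB (a b : Vx d) (K j : ℕ) : Finset (Vx d) := by
  classical exact BX a b ((j + 1) * K) \ BX a b (j * K)

theorem mem_ShB {a b x : Vx d} {K j : ℕ} :
    x ∈ ShB a b K j ↔ x ∈ BX a b ((j + 1) * K) ∧ x ∉ BX a b (j * K) := by
  classical
  unfold ShB
  exact Finset.mem_sdiff

/-- the two ends of an edge differ by at most one in every coordinate -/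
theorem edge_close (e : Ed d) (i : Fin d) : e.1 i ≤ tip e i ∧ tip e i ≤ e.1 i + 1 := by
  classical
  have h : tip e i = e.1 i + uv e.2 i := rfl
  rw [h]
  unfold uv
  rw [Pi.single_apply]
  split_ifs
  · constructor <;> linarith
  · constructor <;> linarith

/-- exploration outwards: nested boxes -/
theorem Shells_out (a b : Vx d) {K : ℕ} (hK : 1 ≤ K) (k : ℕ) (E : Finset (Ed d))
    (hE : ∀ j, j < k → edg (ShB a b K j) ⊆ E) :
    Shells E (fun j => (↑(BX a b (j * K)) : Set (Vx d))) (ShB a b K) k where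
  mono := fun j _ => Finset.coe_subset.mpr (BX_mono a b (Nat.mul_le_mul_right K (Nat.le_succ j)))
  sub := fun j _ x hx => Finset.mem_coe.mpr (mem_ShB.mp hx).1
  out := fun j _ x hx h => (mem_ShB.mp hx).2 (Finset.mem_coe.mp h)
  ex1 := by
    intro j _ e _ h1 h2
    rw [Finset.mem_coe] at h1 h2
    rw [mem_ShB]
    refine ⟨?_, h2⟩
    rw [mem_BX] at h1 ⊢
    intro i
    have h3 := h1 i
    have h4 := edge_close e i
    have h5 : ((j + 1) * K : ℕ) = j * K + K := by ring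
    rw [h5]
    push_cast at h3 ⊢
    have h6 : (1 : ℤ) ≤ K := by exact_mod_cast hK
    exact ⟨by linarith [h3.1, h4.1], by linarith [h3.2, h4.2]⟩
  ex2 := by
    intro j _ e _ h1 h2
    rw [Finset.mem_coe] at h1 h2
    rw [mem_ShB]
    refine ⟨?_, h2⟩
    rw [mem_BX] at h1 ⊢
    intro i
    have h3 := h1 i
    have h4 := edge_close e i
    have h5 : ((j + 1) * K : ℕ) = j * K + K := by ring
    rw [h5]
    push_cast at h3 ⊢
    have h6 : (1 : ℤ) ≤ K := by exact_mod_cast hK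
    exact ⟨by linarith [h3.1, h4.2], by linarith [h3.2, h4.1]⟩
  edg := hE

/-- exploration inwards: complements of nested boxes; `V j` = complement of `BX a b ((k - j) K)` -/
theorem Shells_in (a b : Vx d) {K : ℕ} (hK : 1 ≤ K) (k : ℕ) (E : Finset (Ed d))
    (hE : ∀ j, j < k → edg (ShB a b K j) ⊆ E) :
    Shells E (fun j => (↑(BX a b ((k - j) * K)) : Set (Vx d))ᶜ) (fun j => ShB a b K (k - 1 - j)) k where
  mono := fun j _ => Set.compl_subset_compl.mpr (Finset.coe_subset.mpr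
    (BX_mono a b (Nat.mul_le_mul_right K (by omega))))
  sub := by
    intro j hj x hx h
    have h1 := (mem_ShB.mp hx).2
    rw [Finset.mem_coe] at h
    have h3 : k - (j + 1) = k - 1 - j := by omega
    rw [h3] at h
    exact h1 h
  out := by
    intro j hj x hx h
    have h1 := (mem_ShB.mp hx).1
    have h3 : k - 1 - j + 1 = k - j := by omega
    rw [h3] at h1
    exact h (Finset.mem_coe.mpr h1)
  ex1 := by
    intro j hj e _ h1 h2
    rw [Set.mem_compl_iff, Finset.mem_coe] at h1 h2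
    rw [not_not] at h2
    rw [mem_ShB]
    have h7 : k - 1 - j + 1 = k - j := by omega
    refine ⟨by rw [h7]; exact h2, fun h => h1 ?_⟩
    rw [mem_BX] at h ⊢
    intro i
    have h3 := h i
    have h4 := edge_close e i
    have h5 : ((k - j) * K : ℕ) = (k - 1 - j) * K + K := by
      rw [← h7]; ring
    rw [h5]
    push_cast at h3 ⊢
    have h6 : (1 : ℤ) ≤ K := by exact_mod_cast hK
    exact ⟨by linarith [h3.1, h4.2], by linarith [h3.2, h4.1]⟩
  ex2 := by
    intro j hj e _ h1 h2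
    rw [Set.mem_compl_iff, Finset.mem_coe] at h1 h2
    rw [not_not] at h2
    rw [mem_ShB]
    have h7 : k - 1 - j + 1 = k - j := by omega
    refine ⟨by rw [h7]; exact h2, fun h => h1 ?_⟩
    rw [mem_BX] at h ⊢
    intro i
    have h3 := h i
    have h4 := edge_close e i
    have h5 : ((k - j) * K : ℕ) = (k - 1 - j) * K + K := by
      rw [← h7]; ring
    rw [h5]
    push_cast at h3 ⊢
    have h6 : (1 : ℤ) ≤ K := by exact_mod_cast hK
    exact ⟨by linarith [h3.1, h4.1], by linarith [h3.2, h4.2]⟩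
  edg := fun j hj => hE (k - 1 - j) (by omega)

/-- the parameters `s = x`, `y = x` are admissible -/
theorem Par_self {x : ℝ} (h0 : 0 < x) (h1 : x < 1) (E : Finset (Ed d)) :
    Par (fun _ => x) (fun _ => x) (fun _ => x) E := by
  refine ⟨fun _ _ => h0, fun _ _ => h1, fun _ _ => h0, fun _ _ => h1, fun _ _ => h0,
    fun _ _ => le_refl x, fun _ _ => ?_⟩
  rw [div_self h0.ne']
  have : x / (1 - x) * (1 + 2 * (1 - 1) * (x / (1 - x))) = 1 * (x / (1 - x)) := by ring
  exact this.le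

/-- sprinkling: for `y < x` there is `s < x` such that `(x, s, y)` is admissible -/
theorem exists_par {x y : ℝ} (h0 : 0 < y) (hyx : y < x) (h1 : x < 1) :
    ∃ s, 0 < s ∧ s < x ∧ ∀ E : Finset (Ed d), Par (fun _ => x) (fun _ => s) (fun _ => y) E := by
  have hx0 : 0 < x := h0.trans hyx
  have hy1 : y < 1 := hyx.trans h1
  set r : ℝ := x / (1 - x) with hr
  set q : ℝ := y / (1 - y) with hq
  have hr0 : 0 < r := div_pos hx0 (by linarith)
  have hq0 : 0 < q := div_pos h0 (by linarith)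
  have hqr : q < r := by
    rw [hr, hq, div_lt_div_iff₀ (by linarith) (by linarith)]
    nlinarith
  -- `q (1 + 2 (1 - t) r) ≤ t r` for `t` close to `1`
  have hden : 0 < r + 2 * q * r := by positivity
  set t : ℝ := (q + 2 * q * r) / (r + 2 * q * r) with ht
  have ht0 : 0 < t := div_pos (by positivity) hden
  have ht1 : t < 1 := by
    rw [ht, div_lt_one hden]
    linarith
  have hte : q * (1 + 2 * (1 - t) * r) = t * r := by
    have : t * (r + 2 * q * r) = q + 2 * q * r := div_mul_cancel₀ _ hden.ne'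
    linarith
  refine ⟨t * x, mul_pos ht0 hx0, by nlinarith, fun E => ?_⟩
  refine ⟨fun _ _ => hx0, fun _ _ => h1, fun _ _ => h0, fun _ _ => hy1,
    fun _ _ => mul_pos ht0 hx0, fun _ _ => by nlinarith, fun _ _ => ?_⟩
  have h3 : t * x / x = t := mul_div_cancel_right₀ t hx0.ne'
  rw [h3, ← hr, ← hq, hte]

theorem tanh_pos' {β : ℝ} (h : 0 < β) : 0 < Real.tanh β := by
  rw [Real.tanh_eq_sinh_div_cosh]
  exact div_pos (Real.sinh_pos_iff.mpr h) (Real.cosh_pos β)

theorem tanh_lt_one' (β : ℝ) : Real.tanh β < 1 := by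
  rw [Real.tanh_eq_sinh_div_cosh, div_lt_one (Real.cosh_pos β)]
  exact Real.sinh_lt_cosh β

/-- **LOCAL UNIQUENESS, FK form**: the law `φ^free_E( . | F_A)` at inverse temperature `β`, any `A` -/
theorem LU_FW {β : ℝ} (hβ : 0 < β) {E : Finset (Ed d)} (A : Vx d → ZMod 2) {V : ℕ → Set (Vx d)}
    {Sh : ℕ → Finset (Vx d)} {k : ℕ} (hS : Shells E V Sh k) (c : ℝ) (hc1 : c ≤ 1)
    (hc : ∀ j, j < k → ∀ a ∈ Sh j, ∀ b ∈ Sh j, c ≤ cf (Sh j) β a b)
    (u v : Vx d) (hu : u ∈ V 0) (hv : v ∈ V 0) :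
    ∑ ω ∈ E.powerset, wF bde (fun _ => Real.tanh β) E ω * ind (FF bde A ω) *
        ind (sep (V k) u v ω) ≤
      (1 - c) ^ k * ∑ ω ∈ E.powerset, wF bde (fun _ => Real.tanh β) E ω * ind (FF bde A ω) := by
  have hx0 := tanh_pos' hβ
  have hx1 := tanh_lt_one' β
  have hP : ∀ F : Finset (Ed d), Par (fun _ => Real.tanh β) (fun _ => Real.tanh β)
      (fun _ => Real.tanh β) F := fun F => Par_self hx0 hx1 F
  have hn : Prm (fun _ => Real.tanh β) (fun _ => Real.tanh β) E := (hP E).prm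
  have h := LU_graph (D := Set.univ) (x := fun _ => Real.tanh β) (s := fun _ => Real.tanh β)
    (y := fun _ => Real.tanh β) hn A hS (fun j _ a _ => Set.mem_univ a) (fun j _ => hP _)
    (g := fun _ _ => 1) (fun _ _ => zero_le_one) (fun _ _ _ _ => rfl) c hc1
    (fun j hj a ha b hb => ZA_of_cf (Sh j) hβ.le a b ha hb (hc j hj a ha b hb)) u v hu hv
  rw [bdw_univ] at h
  simp only [one_mul] at h
  have e1 : YG bde (fun _ => Real.tanh β) (fun _ => Real.tanh β) E A
      (fun η b => ind (sep (V k) u v (η ∪ b))) = ∑ ω ∈ E.powerset,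
        wF bde (fun _ => Real.tanh β) E ω * ind (FF bde A ω) * ind (sep (V k) u v ω) := by
    rw [← YS_coupling two_fun]
    rfl
  rw [e1] at h
  refine h.trans (mul_le_mul_of_nonneg_left ?_ (pow_nonneg (by linarith) k))
  rw [← ZA_eq two_fun, ← one_mul (ZA bde (fun _ => Real.tanh β) E A),
    ← YG_const (δ := bde) (fun _ => Real.tanh β) (fun _ => Real.tanh β) E A 1]
  exact YG_mono hn fun η _ b _ _ => ind_le_one _

/-- two clusters starting in the box `[a, b]` and reaching distance `k K` from it -/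
theorem LU_out {β : ℝ} (hβ : 0 < β) {E : Finset (Ed d)} (A : Vx d → ZMod 2) (a b : Vx d) {K : ℕ}
    (hK : 1 ≤ K) (k : ℕ) (hE : ∀ j, j < k → edg (ShB a b K j) ⊆ E) (c : ℝ) (hc1 : c ≤ 1)
    (hc : ∀ j, j < k → ∀ p ∈ ShB a b K j, ∀ q ∈ ShB a b K j, c ≤ cf (ShB a b K j) β p q)
    (u v : Vx d) (hu : u ∈ BX a b 0) (hv : v ∈ BX a b 0) :
    ∑ ω ∈ E.powerset, wF bde (fun _ => Real.tanh β) E ω * ind (FF bde A ω) *
        ind ((∃ p, p ∉ BX a b (k * K) ∧ conn (↑ω : Set (Ed d)) u p) ∧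
          (∃ q, q ∉ BX a b (k * K) ∧ conn (↑ω : Set (Ed d)) v q) ∧
            ¬ conn (↑ω : Set (Ed d)) u v) ≤
      (1 - c) ^ k * ∑ ω ∈ E.powerset, wF bde (fun _ => Real.tanh β) E ω * ind (FF bde A ω) := by
  have hx0 := tanh_pos' hβ
  have hx1 := tanh_lt_one' β
  have hu' : u ∈ (↑(BX a b (0 * K)) : Set (Vx d)) := by
    rw [Nat.zero_mul]
    exact Finset.mem_coe.mpr hu
  have hv' : v ∈ (↑(BX a b (0 * K)) : Set (Vx d)) := by
    rw [Nat.zero_mul]
    exact Finset.mem_coe.mpr hv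
  refine le_trans (Finset.sum_le_sum fun ω hω => ?_)
    (LU_FW hβ A (Shells_out a b hK k E hE) c hc1 hc u v hu' hv')
  refine mul_le_mul_of_nonneg_left (ind_mono ?_) (mul_nonneg (wF_nonneg (fun _ _ => hx0.le)
    (fun _ _ => hx1.le) (Finset.mem_powerset.mp hω)) (ind_nonneg _))
  rintro ⟨⟨p, hp, hup⟩, ⟨q, hq, hvq⟩, hn⟩
  have hsub : BX a b 0 ⊆ BX a b (k * K) := BX_mono a b (Nat.zero_le _)
  exact sep_of (Finset.mem_coe.mpr (hsub hu)) (Finset.mem_coe.mpr (hsub hv))
    ⟨p, fun h => hp (Finset.mem_coe.mp h), hup⟩ ⟨q, fun h => hq (Finset.mem_coe.mp h), hvq⟩ hn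

/-- two clusters starting outside the enlarged box and reaching the box `[a, b]` -/
theorem LU_in {β : ℝ} (hβ : 0 < β) {E : Finset (Ed d)} (A : Vx d → ZMod 2) (a b : Vx d) {K : ℕ}
    (hK : 1 ≤ K) (k : ℕ) (hE : ∀ j, j < k → edg (ShB a b K j) ⊆ E) (c : ℝ) (hc1 : c ≤ 1)
    (hc : ∀ j, j < k → ∀ p ∈ ShB a b K j, ∀ q ∈ ShB a b K j, c ≤ cf (ShB a b K j) β p q)
    (u v : Vx d) (hu : u ∉ BX a b (k * K)) (hv : v ∉ BX a b (k * K)) :
    ∑ ω ∈ E.powerset, wF bde (fun _ => Real.tanh β) E ω * ind (FF bde A ω) *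
        ind ((∃ p ∈ BX a b 0, conn (↑ω : Set (Ed d)) u p) ∧
          (∃ q ∈ BX a b 0, conn (↑ω : Set (Ed d)) v q) ∧
            ¬ conn (↑ω : Set (Ed d)) u v) ≤
      (1 - c) ^ k * ∑ ω ∈ E.powerset, wF bde (fun _ => Real.tanh β) E ω * ind (FF bde A ω) := by
  have hx0 := tanh_pos' hβ
  have hx1 := tanh_lt_one' β
  have hsub : BX a b 0 ⊆ BX a b (k * K) := BX_mono a b (Nat.zero_le _)
  refine le_trans (Finset.sum_le_sum fun ω hω => ?_)
    (LU_FW hβ A (Shells_in a b hK k E hE) c hc1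
      (fun j hj => hc (k - 1 - j) (by omega)) u v
      (by
        rw [Nat.sub_zero]
        exact fun h => hu (Finset.mem_coe.mp h))
      (by
        rw [Nat.sub_zero]
        exact fun h => hv (Finset.mem_coe.mp h)))
  refine mul_le_mul_of_nonneg_left (ind_mono ?_) (mul_nonneg (wF_nonneg (fun _ _ => hx0.le)
    (fun _ _ => hx1.le) (Finset.mem_powerset.mp hω)) (ind_nonneg _))
  rintro ⟨⟨p, hp, hup⟩, ⟨q, hq, hvq⟩, hn⟩
  have e0 : (k - k) * K = 0 := by rw [Nat.sub_self, Nat.zero_mul]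
  rw [e0]
  refine sep_of (fun h => hu (hsub (Finset.mem_coe.mp h)))
    (fun h => hv (hsub (Finset.mem_coe.mp h)))
    ⟨p, fun h => h (Finset.mem_coe.mpr hp), hup⟩ ⟨q, fun h => h (Finset.mem_coe.mpr hq), hvq⟩ hn

end Pool.Agent.FK1
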