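import Pool.Agent.FK1.Blk

/-!
# Block FK1, part M: exploration steps (helper34)

A step: a set `T` of edges in which a connection event has probability at least `c` under the (smaller) FK
law with free boundary conditions, hence for every source set under the loop O(1) model with coins.
-/

set_option autoImplicit false
set_option linter.unusedSectionVars false

namespace Pool.Agent.FK1

open Finset
open Pool.Agent.SRC (ind ind_true ind_false ind_nonneg ind_le_one ind_mono ind_congr ind_not)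

section

variable {ε G : Type*} [DecidableEq ε] [AddCommGroup G] {δ : ε → G}

theorem sum_wF_eq (h2 : ∀ g : G, g + g = 0) (y : ε → ℝ) (T : Finset ε) :
    ∑ ω ∈ T.powerset, wF δ y T ω = ZA δ y T 0 := by
  rw [ZA_eq h2]
  refine Finset.sum_congr rfl fun ω _ => ?_
  rw [ind_true (FF.zero ω), mul_one]

/-- a connection event has probability at least `c` in `T`, for EVERY source set -/
theorem YS_FF_ge (h2 : ∀ g : G, g + g = 0) {x s y : ε → ℝ} {T : Finset ε} (hp : Par x s y T)
    {B : G} {c : ℝ} (hc : c * ZA δ y T 0 ≤ ZA δ y T B) (A : G) :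
    c * ZA δ x T A ≤ YS δ x s T A fun t => ind (FF δ B t) := by
  refine YS_ge_of_wF h2 hp (Inc_FF (δ := δ) T B) ?_ A
  rw [sum_wF_eq h2, ← ZA_eq h2]
  exact hc

/-- **one step of the exploration**.  `D'` implies `D`, `D` does not depend on `T`, and for every outside
with `D` there is a connection in `T` (probability at least `c` in the smaller FK law) which excludes `D'`.
`g` is any nonnegative weight which does not depend on `T`. -/
theorem step (h2 : ∀ g : G, g + g = 0) {x s y : ε → ℝ} {E T : Finset ε} (hT : T ⊆ E)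
    (hn : Prm x s E) (hp : Par x s y T) (A : G) {g : Finset ε → Finset ε → ℝ}
    (hg0 : ∀ η b, 0 ≤ g η b) (hg : ∀ η b, g η b = g (η \ T) (b \ T)) (D D' : Finset ε → Prop)
    (c : ℝ) (hc1 : c ≤ 1)
    (hD : ∀ ω, ω ⊆ E \ T → ∀ t, t ⊆ T → D' (ω ∪ t) → D ω)
    (hD0 : ∀ ω, ω ⊆ E \ T → ∀ t, t ⊆ T → D ω → D (ω ∪ t))
    (hc : ∀ ω, ω ⊆ E \ T → D ω → ∃ B : G, c * ZA δ y T 0 ≤ ZA δ y T B ∧
      ∀ t, t ⊆ T → FF δ B t → ¬ D' (ω ∪ t)) :
    YG δ x s E A (fun η b => g η b * ind (D' (η ∪ b))) ≤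
      (1 - c) * YG δ x s E A (fun η b => g η b * ind (D (η ∪ b))) := by
  rw [← YG_smul]
  refine YG_block_le hn hT fun η hη b hb B => ?_
  have hout : ∀ a a' : Finset ε, a ⊆ E \ T → a' ⊆ T → (a ∪ a') \ T = a := by
    intro a a' ha ha'
    rw [Finset.union_sdiff_distrib, Finset.sdiff_eq_empty_iff_subset.mpr ha', Finset.union_empty]
    exact Finset.sdiff_eq_self_of_disjoint (Finset.disjoint_of_subset_left ha Finset.sdiff_disjoint)
  have hgg : ∀ η', η' ⊆ T → ∀ b', b' ⊆ T → g (η ∪ η') (b ∪ b') = g η b := by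
    intro η' hη' b' hb'
    rw [hg (η ∪ η') (b ∪ b'), hout η η' hη hη', hout b b' hb hb']
  have hun : ∀ η' b' : Finset ε, η ∪ η' ∪ (b ∪ b') = (η ∪ b) ∪ (η' ∪ b') := fun η' b' =>
    Finset.union_union_union_comm η η' b b'
  have hω : η ∪ b ⊆ E \ T := Finset.union_subset hη hb
  have hnT : Prm x s T := hp.prm
  have e1 : YG δ x s T B (fun η' b' => g (η ∪ η') (b ∪ b') * ind (D' (η ∪ η' ∪ (b ∪ b')))) =
      g η b * YS δ x s T B (fun t => ind (D' ((η ∪ b) ∪ t))) := by
    rw [YS_eq_YG, ← YG_smul]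
    refine YG_congr fun η' hη' b' hb' _ => ?_
    rw [hgg η' hη' b' hb', hun]
  rw [e1]
  by_cases hDω : D (η ∪ b)
  · obtain ⟨B', hB, hB'⟩ := hc _ hω hDω
    have h5 := YS_FF_ge (δ := δ) h2 hp hB B
    have h6 : YS δ x s T B (fun t => ind (D' ((η ∪ b) ∪ t))) ≤
        1 * ZA δ x T B - YS δ x s T B (fun t => ind (FF δ B' t)) := by
      rw [← YG_const (δ := δ) x s, YS_eq_YG, YS_eq_YG, ← YG_sub]
      refine YG_mono hnT fun η' hη' b' hb' _ => ?_
      by_cases h7 : FF δ B' (η' ∪ b')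
      · rw [ind_false (hB' _ (Finset.union_subset hη' hb') h7), ind_true h7, sub_self]
      · rw [ind_false h7, sub_zero]
        exact ind_le_one _
    have e2 : YG δ x s T B (fun η' b' => (1 - c) *
        (g (η ∪ η') (b ∪ b') * ind (D (η ∪ η' ∪ (b ∪ b'))))) =
        g η b * ((1 - c) * (1 * ZA δ x T B)) := by
      rw [← YG_const (δ := δ) x s, ← YG_smul, ← YG_smul]
      refine YG_congr fun η' hη' b' hb' _ => ?_
      rw [hgg η' hη' b' hb', hun,
        ind_true (hD0 _ hω _ (Finset.union_subset hη' hb') hDω)]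
      ring
    rw [e2]
    refine mul_le_mul_of_nonneg_left ?_ (hg0 η b)
    linarith
  · have e3 : YS δ x s T B (fun t => ind (D' ((η ∪ b) ∪ t))) = 0 := by
      rw [YS_eq_YG]
      have : YG δ x s T B (fun η' b' => ind (D' ((η ∪ b) ∪ (η' ∪ b')))) =
          YG δ x s T B (fun _ _ => 0) := by
        refine YG_congr fun η' hη' b' hb' _ => ?_
        exact ind_false fun h => hDω (hD _ hω _ (Finset.union_subset hη' hb') h)
      rw [this, YG_const, zero_mul]
    rw [e3, mul_zero]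
    exact YG_nonneg hnT fun η' _ b' _ => mul_nonneg (by linarith) (mul_nonneg (hg0 _ _)
      (ind_nonneg _))

/-- **many steps**: disjointness of the sets `T j` is not needed, only that `D j` does not depend on
`T j` and that `g` depends on none of them -/
theorem steps (h2 : ∀ g : G, g + g = 0) {x s y : ε → ℝ} {E : Finset ε} (hn : Prm x s E) (A : G)
    (k : ℕ) (T : ℕ → Finset ε) (hT : ∀ j, j < k → T j ⊆ E) (hp : ∀ j, j < k → Par x s y (T j))
    {g : Finset ε → Finset ε → ℝ} (hg0 : ∀ η b, 0 ≤ g η b)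
    (hg : ∀ j, j < k → ∀ η b, g η b = g (η \ T j) (b \ T j)) (D : ℕ → Finset ε → Prop)
    (c : ℝ) (hc1 : c ≤ 1)
    (hD : ∀ j, j < k → ∀ ω, ω ⊆ E \ T j → ∀ t, t ⊆ T j → D (j + 1) (ω ∪ t) → D j ω)
    (hD0 : ∀ j, j < k → ∀ ω, ω ⊆ E \ T j → ∀ t, t ⊆ T j → D j ω → D j (ω ∪ t))
    (hc : ∀ j, j < k → ∀ ω, ω ⊆ E \ T j → D j ω → ∃ B : G, c * ZA δ y (T j) 0 ≤ ZA δ y (T j) B ∧
      ∀ t, t ⊆ T j → FF δ B t → ¬ D (j + 1) (ω ∪ t)) :
    YG δ x s E A (fun η b => g η b * ind (D k (η ∪ b))) ≤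
      (1 - c) ^ k * YG δ x s E A (fun η b => g η b * ind (D 0 (η ∪ b))) := by
  induction k with
  | zero => rw [pow_zero, one_mul]
  | succ k ih =>
    have h1 := ih (fun j hj => hT j (hj.trans (Nat.lt_succ_self k)))
      (fun j hj => hp j (hj.trans (Nat.lt_succ_self k)))
      (fun j hj => hg j (hj.trans (Nat.lt_succ_self k)))
      (fun j hj => hD j (hj.trans (Nat.lt_succ_self k)))
      (fun j hj => hD0 j (hj.trans (Nat.lt_succ_self k)))
      (fun j hj => hc j (hj.trans (Nat.lt_succ_self k)))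
    have hk := Nat.lt_succ_self k
    have h3 := step h2 (hT k hk) hn (hp k hk) A hg0 (hg k hk) (D k) (D (k + 1)) c hc1
      (hD k hk) (hD0 k hk) (hc k hk)
    refine h3.trans ?_
    rw [pow_succ, mul_comm ((1 - c) ^ k) (1 - c), mul_assoc]
    exact mul_le_mul_of_nonneg_left h1 (by linarith)

end

end Pool.Agent.FK1
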